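import Pool.Agent.H559.HY.Eng

set_option autoImplicit false

/-! # Probabilities of one and of two numbers in the hybrid random sieve -/

open Finset MeasureTheory ProbabilityTheory Filter Topology
open Pool.Agent.T2H32.BF (Model prob V V_pos V_anti V_ratio)
open Pool.Agent.H559.HY (RS)

namespace Pool.Agent.H559.SQ

variable {Ω : Type*} [MeasurableSpace Ω] {P : Measure Ω} {a : ℕ → Ω → ℕ}

theorem single (h : Model P a) (p : ℕ) (hp : p.Prime) (K : Finset ℕ) (hK : K ⊆ range p) :
    P.real {ω | a p ω ∉ K} = 1 - (K.card : ℝ) / p := by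
  have := prob h
  have hm : ∀ r, MeasurableSet {ω | a p ω = r} := fun r => h.measurable p (measurableSet_singleton r)
  have e : {ω | a p ω ∈ K} = ⋃ r ∈ K, {ω | a p ω = r} := by
    ext ω
    simp
  have hmK : MeasurableSet {ω | a p ω ∈ K} := by
    rw [e]
    exact Finset.measurableSet_biUnion _ fun r _ => hm r
  have h1 : P.real {ω | a p ω ∈ K} = (K.card : ℝ) / p := by
    rw [e, measureReal_biUnion_finset]
    · rw [sum_congr rfl (fun r hr => h.uniform p hp r (mem_range.1 (hK hr))), sum_const, nsmul_eq_mul]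
      ring
    · intro r _ r' _ hne
      rw [Function.onFun, Set.disjoint_left]
      intro ω h1 h2
      exact hne ((show a p ω = r from h1).symm.trans h2)
    · exact fun r _ => hm r
  have h2 : {ω | a p ω ∉ K} = {ω | a p ω ∈ K}ᶜ := rfl
  rw [h2, probReal_compl_eq_one_sub hmK, h1]

theorem avoid (h : Model P a) (L : Finset ℕ) (hL : ∀ p ∈ L, p.Prime) (K : ℕ → Finset ℕ)
    (hK : ∀ p ∈ L, K p ⊆ range p) :
    P.real {ω | ∀ p ∈ L, a p ω ∉ K p} = ∏ p ∈ L, (1 - ((K p).card : ℝ) / p) := by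
  have := prob h
  have e : {ω | ∀ p ∈ L, a p ω ∉ K p} = ⋂ p ∈ L, a p ⁻¹' ((K p : Set ℕ)ᶜ) := by
    ext ω
    simp
  have h1 := h.independent.measure_inter_preimage_eq_mul L (sets := fun p => ((K p : Set ℕ)ᶜ))
    (fun p _ => MeasurableSet.of_discrete)
  rw [measureReal_def, e, h1, ENNReal.toReal_prod]
  refine prod_congr rfl fun p hp => ?_
  exact single h p (hL p hp) (K p) (hK p hp)

/-- the primes which sieve `v` randomly -/
def lv (z W : ℕ → ℕ) (v : ℕ) : Finset ℕ := (Ioc (W v) (z v)).filter Nat.Prime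

/-- the small primes do not sieve out `v` -/
def Tr (z W : ℕ → ℕ) (v : ℕ) : Prop := 3 ≤ v ∧ ∀ q ≤ z v, q ≤ W v → q.Prime → ¬ q ∣ v

/-- the probability of `v` -/
noncomputable def pv (z W : ℕ → ℕ) (v : ℕ) : ℝ := ∏ q ∈ lv z W v, (1 - 1 / (q : ℝ))

theorem mem_lv (z W : ℕ → ℕ) (v q : ℕ) : q ∈ lv z W v ↔ W v < q ∧ q ≤ z v ∧ q.Prime := by
  unfold lv
  rw [mem_filter, mem_Ioc]
  tauto

theorem mem_RS (z W : ℕ → ℕ) (b : ℕ → ℕ) (v : ℕ) :
    v ∈ RS z W b ↔ Tr z W v ∧ ∀ q ∈ lv z W v, b q ∉ ({v % q} : Finset ℕ) := by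
  simp only [RS, Set.mem_ofPred_eq, Tr, mem_lv, mem_singleton]
  constructor
  · rintro ⟨h1, h2⟩
    refine ⟨⟨h1, fun q hq hqW hp hd => ?_⟩, fun q hq hb => ?_⟩
    · have := h2 q hq hp
      rw [if_pos hqW] at this
      exact this (Nat.mod_eq_zero_of_dvd hd)
    · have := h2 q hq.2.1 hq.2.2
      rw [if_neg (by omega)] at this
      exact this hb.symm
  · rintro ⟨⟨h1, h2⟩, h3⟩
    refine ⟨h1, fun q hq hp => ?_⟩
    split_ifs with hqW
    · intro h4
      exact h2 q hq hqW hp (Nat.dvd_of_mod_eq_zero h4)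
    · intro h4
      exact h3 q ⟨by omega, hq, hp⟩ h4.symm

theorem pv_eq (z W : ℕ → ℕ) (v : ℕ) (h : W v ≤ z v) : pv z W v = V (z v) / V (W v) := (V_ratio _ _ h).symm

theorem pv_nonneg (z W : ℕ → ℕ) (v : ℕ) : 0 ≤ pv z W v := by
  refine prod_nonneg fun q hq => ?_
  have h1 := ((mem_lv z W v q).1 hq).2.2.two_le
  have h2 : (2 : ℝ) ≤ q := by exact_mod_cast h1
  have : 1 / (q : ℝ) ≤ 1 := by
    rw [div_le_one (by linarith)]
    linarith
  linarith

theorem pv_le_one (z W : ℕ → ℕ) (v : ℕ) : pv z W v ≤ 1 := by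
  refine prod_le_one (fun q hq => ?_) (fun q hq => ?_)
  · have h1 := ((mem_lv z W v q).1 hq).2.2.two_le
    have h2 : (2 : ℝ) ≤ q := by exact_mod_cast h1
    have : 1 / (q : ℝ) ≤ 1 := by
      rw [div_le_one (by linarith)]
      linarith
    linarith
  · have : (0 : ℝ) ≤ 1 / q := by positivity
    linarith

theorem one_num (h : Model P a) (z W : ℕ → ℕ) (v : ℕ) (hT : Tr z W v) :
    P.real {ω | v ∈ RS z W (fun q => a q ω)} = pv z W v := by
  have e : {ω | v ∈ RS z W (fun q => a q ω)} = {ω | ∀ q ∈ lv z W v, a q ω ∉ ({v % q} : Finset ℕ)} := by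
    ext ω
    simp only [Set.mem_ofPred_eq, mem_RS]
    exact ⟨fun h => h.2, fun h => ⟨hT, h⟩⟩
  rw [e, avoid h (lv z W v) (fun q hq => ((mem_lv z W v q).1 hq).2.2) (fun q => {v % q})]
  · unfold pv
    refine prod_congr rfl fun q _ => ?_
    rw [card_singleton, Nat.cast_one]
  · intro q hq
    rw [singleton_subset_iff, mem_range]
    exact Nat.mod_lt _ ((mem_lv z W v q).1 hq).2.2.pos

theorem meas_RS (h : Model P a) (z W : ℕ → ℕ) (v : ℕ) :
    MeasurableSet {ω | v ∈ RS z W (fun q => a q ω)} := by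
  have e : {ω | v ∈ RS z W (fun q => a q ω)} =
      {_ω | Tr z W v} ∩ ⋂ q ∈ lv z W v, a q ⁻¹' ((({v % q} : Finset ℕ) : Set ℕ)ᶜ) := by
    ext ω
    simp only [Set.mem_ofPred_eq, mem_RS, Set.mem_inter_iff, Set.mem_iInter, Set.mem_preimage, Set.mem_compl_iff,
      Finset.mem_coe]
  rw [e]
  refine (MeasurableSet.const _).inter (Finset.measurableSet_biInter _ fun q _ => ?_)
  exact h.measurable q MeasurableSet.of_discrete

theorem two_num (h : Model P a) (z W : ℕ → ℕ) (u v : ℕ) (huv : u < v) (hTu : Tr z W u) (hTv : Tr z W v)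
    (hW : 2 ≤ W v) :
    P.real ({ω | u ∈ RS z W (fun q => a q ω)} ∩ {ω | v ∈ RS z W (fun q => a q ω)}) ≤
      pv z W u * pv z W v * Real.exp (2 * Real.log v / (W v * Real.log (W v))) := by
  classical
  set K : ℕ → Finset ℕ := fun q => (if q ∈ lv z W u then {u % q} else ∅) ∪ (if q ∈ lv z W v then {v % q} else ∅)
    with hK
  set L := lv z W u ∪ lv z W v with hL
  have hLp : ∀ q ∈ L, q.Prime := by
    intro q hq
    rcases mem_union.1 hq with h1 | h1
    · exact ((mem_lv z W u q).1 h1).2.2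
    · exact ((mem_lv z W v q).1 h1).2.2
  have e : {ω | u ∈ RS z W (fun q => a q ω)} ∩ {ω | v ∈ RS z W (fun q => a q ω)} = {ω | ∀ q ∈ L, a q ω ∉ K q} := by
    ext ω
    simp only [Set.mem_inter_iff, Set.mem_ofPred_eq, mem_RS, hK, hL, mem_union]
    constructor
    · rintro ⟨⟨_, h1⟩, ⟨_, h2⟩⟩ q _ h4
      rcases h4 with h4 | h4
      · split_ifs at h4 with h5
        · exact h1 q h5 h4
        · simp at h4
      · split_ifs at h4 with h5
        · exact h2 q h5 h4
        · simp at h4
    · intro h1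
      refine ⟨⟨hTu, fun q hq h2 => h1 q (Or.inl hq) (Or.inl ?_)⟩, ⟨hTv, fun q hq h2 => h1 q (Or.inr hq) (Or.inr ?_)⟩⟩
      · rw [if_pos hq]
        exact h2
      · rw [if_pos hq]
        exact h2
  rw [e, avoid h L hLp K]
  swap
  · intro q hq
    simp only [hK]
    refine union_subset ?_ ?_
    · split_ifs
      · rw [singleton_subset_iff, mem_range]
        exact Nat.mod_lt _ (hLp q hq).pos
      · exact empty_subset _
    · split_ifs
      · rw [singleton_subset_iff, mem_range]
        exact Nat.mod_lt _ (hLp q hq).pos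
      · exact empty_subset _
  set D := L.filter (fun q => q ∈ lv z W u ∧ q ∈ lv z W v ∧ q ∣ v - u) with hD
  have e1 : pv z W u = ∏ q ∈ L, (if q ∈ lv z W u then (1 - 1 / (q : ℝ)) else 1) := by
    unfold pv
    rw [← prod_filter]
    refine prod_congr ?_ fun _ _ => rfl
    ext q
    simp only [hL, mem_filter, mem_union]
    tauto
  have e2 : pv z W v = ∏ q ∈ L, (if q ∈ lv z W v then (1 - 1 / (q : ℝ)) else 1) := by
    unfold pv
    rw [← prod_filter]
    refine prod_congr ?_ fun _ _ => rfl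
    ext q
    simp only [hL, mem_filter, mem_union]
    tauto
  have e3 : ∏ q ∈ D, (1 - 1 / (q : ℝ))⁻¹ =
      ∏ q ∈ L, (if q ∈ lv z W u ∧ q ∈ lv z W v ∧ q ∣ v - u then (1 - 1 / (q : ℝ))⁻¹ else 1) := by
    rw [hD, prod_filter]
  have hfac : ∀ q ∈ L, (2 : ℝ) ≤ q := fun q hq => by exact_mod_cast (hLp q hq).two_le
  have hmain : ∏ q ∈ L, (1 - ((K q).card : ℝ) / q) ≤ pv z W u * pv z W v * ∏ q ∈ D, (1 - 1 / (q : ℝ))⁻¹ := by
    rw [e1, e2, e3, ← prod_mul_distrib, ← prod_mul_distrib]
    refine prod_le_prod (fun q hq => ?_) (fun q hq => ?_)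
    · have h1 : (K q).card ≤ 2 := by
        simp only [hK]
        refine (card_union_le _ _).trans ?_
        split_ifs <;> simp
      have h2 := hfac q hq
      have h3 : ((K q).card : ℝ) ≤ 2 := by exact_mod_cast h1
      have : ((K q).card : ℝ) / q ≤ 1 := by
        rw [div_le_one (by linarith)]
        linarith
      linarith
    · have h2 := hfac q hq
      have hq0 : (0 : ℝ) < q := by linarith
      have hi : 0 < 1 / (q : ℝ) := by positivity
      have hi2 : 1 / (q : ℝ) ≤ 1 / 2 := by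
        apply one_div_le_one_div_of_le <;> linarith
      by_cases hu : q ∈ lv z W u <;> by_cases hv : q ∈ lv z W v
      · by_cases hd : q ∣ v - u
        · rw [if_pos hu, if_pos hv, if_pos ⟨hu, hv, hd⟩]
          have hc : u % q = v % q := (Nat.modEq_iff_dvd' huv.le).2 hd
          have hK1 : (K q).card = 1 := by
            simp only [hK, if_pos hu, if_pos hv]
            rw [← hc, union_self, card_singleton]
          rw [hK1, Nat.cast_one]
          have h3 : (1 - 1 / (q : ℝ)) ≠ 0 := by linarith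
          have : (1 - 1 / (q : ℝ)) * (1 - 1 / (q : ℝ)) * (1 - 1 / (q : ℝ))⁻¹ = 1 - 1 / (q : ℝ) := by
            rw [mul_assoc, mul_inv_cancel₀ h3, mul_one]
          rw [this]
        · rw [if_pos hu, if_pos hv, if_neg (fun h => hd h.2.2)]
          have hc : u % q ≠ v % q := fun h3 => hd ((Nat.modEq_iff_dvd' huv.le).1 h3)
          have hK2 : (K q).card = 2 := by
            simp only [hK, if_pos hu, if_pos hv]
            rw [card_union_of_disjoint (by simpa using hc), card_singleton, card_singleton]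
          rw [hK2]
          have : ((2 : ℕ) : ℝ) / q = 2 * (1 / q) := by
            push_cast
            ring
          rw [this, mul_one]
          nlinarith
      · rw [if_pos hu, if_neg hv, if_neg (fun h => hv h.2.1)]
        have hK1 : (K q).card = 1 := by
          simp only [hK, if_pos hu, if_neg hv]
          rw [union_empty, card_singleton]
        rw [hK1, Nat.cast_one]
        simp
      · rw [if_neg hu, if_pos hv, if_neg (fun h => hu h.1)]
        have hK1 : (K q).card = 1 := by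
          simp only [hK, if_neg hu, if_pos hv]
          rw [empty_union, card_singleton]
        rw [hK1, Nat.cast_one]
        simp
      · exact absurd (mem_union.1 hq) (by tauto)
  refine hmain.trans ?_
  refine mul_le_mul_of_nonneg_left ?_ (mul_nonneg (pv_nonneg _ _ _) (pv_nonneg _ _ _))
  -- the primes dividing the difference
  have hDp : ∀ q ∈ D, q.Prime ∧ W v < q ∧ q ∣ v - u := by
    intro q hq
    have h1 := mem_filter.1 hq
    exact ⟨hLp q h1.1, ((mem_lv z W v q).1 h1.2.2.1).1, h1.2.2.2⟩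
  have hW0 : (2 : ℝ) ≤ W v := by exact_mod_cast hW
  have hlogW : 0 < Real.log (W v) := Real.log_pos (by linarith)
  have hcard : (D.card : ℝ) * Real.log (W v) ≤ Real.log v := by
    have h1 : ∏ q ∈ D, q ∣ v - u :=
      prod_primes_dvd _ (fun q hq => (hDp q hq).1.prime) (fun q hq => (hDp q hq).2.2)
    have h2 : ∏ q ∈ D, q ≤ v - u := Nat.le_of_dvd (by omega) h1
    have h3 : W v ^ D.card ≤ ∏ q ∈ D, q := by
      rw [← prod_const]
      exact prod_le_prod' fun q hq => (hDp q hq).2.1.le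
    have h4 : W v ^ D.card ≤ v := h3.trans (h2.trans (Nat.sub_le _ _))
    have h5 : ((W v : ℝ)) ^ D.card ≤ v := by exact_mod_cast h4
    have h6 := Real.log_le_log (by positivity) h5
    rwa [Real.log_pow] at h6
  have h1 : ∏ q ∈ D, (1 - 1 / (q : ℝ))⁻¹ ≤ ∏ _q ∈ D, Real.exp (2 / (W v : ℝ)) := by
    refine prod_le_prod (fun q hq => ?_) (fun q hq => ?_)
    · have h2 : (2 : ℝ) ≤ q := by exact_mod_cast (hDp q hq).1.two_le
      have : 1 / (q : ℝ) ≤ 1 := by
        rw [div_le_one (by linarith)]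
        linarith
      exact inv_nonneg.2 (by linarith)
    · have h2 : (2 : ℝ) ≤ q := by exact_mod_cast (hDp q hq).1.two_le
      have h3 : (W v : ℝ) ≤ q := by exact_mod_cast (hDp q hq).2.1.le
      have h4 : 1 / (q : ℝ) ≤ 1 / 2 := by
        apply one_div_le_one_div_of_le <;> linarith
      have h5 : (0 : ℝ) < 1 / q := by positivity
      have h6 : (1 - 1 / (q : ℝ))⁻¹ ≤ 1 + 2 * (1 / q) := by
        rw [inv_le_comm₀ (by linarith) (by linarith)]
        rw [inv_le_comm₀ (by linarith) (by linarith)]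
        rw [inv_le_iff_one_le_mul₀ (by linarith)]
        nlinarith
      have h7 : 1 / (q : ℝ) ≤ 1 / W v := by
        apply one_div_le_one_div_of_le <;> linarith
      refine h6.trans ?_
      have h8 := Real.add_one_le_exp (2 / (W v : ℝ))
      have h9 : 2 / (W v : ℝ) = 2 * (1 / W v) := by ring
      linarith
  refine h1.trans ?_
  rw [prod_const, ← Real.exp_nat_mul]
  refine Real.exp_le_exp.2 ?_
  have h2 : (D.card : ℝ) ≤ Real.log v / Real.log (W v) := by
    rw [le_div_iff₀ hlogW]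
    exact hcard
  calc (D.card : ℝ) * (2 / (W v : ℝ)) ≤ Real.log v / Real.log (W v) * (2 / (W v : ℝ)) := by gcongr
    _ = 2 * Real.log v / (W v * Real.log (W v)) := by
        field_simp

end Pool.Agent.H559.SQ
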