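import Pool.Agent.H559.BS.Main

set_option autoImplicit false

/-! # A strong law for counting functions of logarithmic growth -/

open Finset MeasureTheory ProbabilityTheory Filter Topology
open Pool.Agent.H559.BS (bc)

namespace Pool.Agent.H559.SQ

/-- interpolation -/
theorem interp (S : ℕ → ℝ) (hS : Monotone S) (hS0 : ∀ n, 0 ≤ S n) (c : ℝ)
    (h : Tendsto (fun j : ℕ => S (2 ^ (j ^ 2)) / ((j : ℝ) ^ 2)) atTop (𝓝 c)) :
    Tendsto (fun y : ℕ => S y / Real.logb 2 y) atTop (𝓝 c) := by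
  set J : ℕ → ℕ := fun y => Nat.sqrt (Nat.log 2 y) with hJ
  have hlog : Tendsto (fun y : ℕ => Nat.log 2 y) atTop atTop := by
    refine tendsto_atTop.2 fun b => ?_
    filter_upwards [eventually_ge_atTop (2 ^ b)] with y hy
    have h2b : 0 < 2 ^ b := by positivity
    exact (Nat.le_log_iff_pow_le (by norm_num) (by omega)).2 hy
  have hsqrt : Tendsto (fun y : ℕ => Nat.sqrt y) atTop atTop := by
    refine tendsto_atTop.2 fun b => ?_
    filter_upwards [eventually_ge_atTop (b * b)] with y hy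
    exact Nat.le_sqrt.2 hy
  have hJt : Tendsto J atTop atTop := hsqrt.comp hlog
  have h1 : Tendsto (fun j : ℕ => ((j : ℝ) + 1) ^ 2 / (j : ℝ) ^ 2) atTop (𝓝 1) := by
    have h2 : Tendsto (fun j : ℕ => (1 + 1 / (j : ℝ)) ^ 2) atTop (𝓝 ((1 + 0) ^ 2)) :=
      ((tendsto_const_nhds (x := (1 : ℝ))).add tendsto_one_div_atTop_nhds_zero_nat).pow 2
    rw [add_zero, one_pow] at h2
    refine h2.congr' ?_
    filter_upwards [eventually_ge_atTop 1] with j hj
    have : (j : ℝ) ≠ 0 := by
      have : (0 : ℝ) < j := by exact_mod_cast hj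
      exact this.ne'
    field_simp
  have hlow : Tendsto (fun j : ℕ => S (2 ^ (j ^ 2)) / ((j : ℝ) + 1) ^ 2) atTop (𝓝 c) := by
    have h2 := h.div h1 one_ne_zero
    rw [div_one] at h2
    refine h2.congr' ?_
    filter_upwards [eventually_ge_atTop 1] with j hj
    have : (0 : ℝ) < j := by exact_mod_cast hj
    simp only [Pi.div_apply]
    field_simp
  have hup : Tendsto (fun j : ℕ => S (2 ^ ((j + 1) ^ 2)) / (j : ℝ) ^ 2) atTop (𝓝 c) := by
    have h2 := ((tendsto_add_atTop_iff_nat 1).2 h).mul h1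
    rw [mul_one] at h2
    refine h2.congr' ?_
    filter_upwards [eventually_ge_atTop 1] with j hj
    have : (0 : ℝ) < j := by exact_mod_cast hj
    push_cast
    field_simp
  refine tendsto_of_tendsto_of_tendsto_of_le_of_le' (hlow.comp hJt) (hup.comp hJt) ?_ ?_
  · filter_upwards [eventually_ge_atTop 2] with y hy
    simp only [Function.comp_apply]
    have hy0 : y ≠ 0 := by omega
    have h3 : J y ^ 2 ≤ Nat.log 2 y := by
      rw [sq]
      exact Nat.sqrt_le _
    have h4 : 2 ^ (J y ^ 2) ≤ y := (Nat.pow_le_pow_right (by norm_num) h3).trans (Nat.pow_log_le_self 2 hy0)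
    have h5 : Nat.log 2 y < (J y + 1) ^ 2 := by
      rw [sq]
      exact Nat.lt_succ_sqrt _
    have h6 : y < 2 ^ ((J y + 1) ^ 2) :=
      (Nat.lt_pow_succ_log_self (by norm_num) y).trans_le (Nat.pow_le_pow_right (by norm_num) h5)
    have h7 : Real.logb 2 y ≤ ((J y : ℝ) + 1) ^ 2 := by
      rw [Real.logb_le_iff_le_rpow (by norm_num) (by exact_mod_cast (by omega : 0 < y))]
      have h8 : (y : ℝ) ≤ ((2 ^ ((J y + 1) ^ 2) : ℕ) : ℝ) := by exact_mod_cast h6.le
      refine h8.trans (le_of_eq ?_)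
      push_cast
      rw [← Real.rpow_natCast]
      push_cast
      rfl
    have h9 : 0 < Real.logb 2 y := Real.logb_pos (by norm_num) (by exact_mod_cast (by omega : 1 < y))
    exact div_le_div₀ (hS0 _) (hS h4) h9 h7
  · filter_upwards [eventually_ge_atTop 2] with y hy
    simp only [Function.comp_apply]
    have hy0 : y ≠ 0 := by omega
    have h3 : J y ^ 2 ≤ Nat.log 2 y := by
      rw [sq]
      exact Nat.sqrt_le _
    have h4 : 2 ^ (J y ^ 2) ≤ y := (Nat.pow_le_pow_right (by norm_num) h3).trans (Nat.pow_log_le_self 2 hy0)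
    have h5 : Nat.log 2 y < (J y + 1) ^ 2 := by
      rw [sq]
      exact Nat.lt_succ_sqrt _
    have h6 : y < 2 ^ ((J y + 1) ^ 2) :=
      (Nat.lt_pow_succ_log_self (by norm_num) y).trans_le (Nat.pow_le_pow_right (by norm_num) h5)
    have h10 : 1 ≤ J y := Nat.le_sqrt.2 (by
      have : 1 ≤ Nat.log 2 y := (Nat.le_log_iff_pow_le (by norm_num) hy0).2 (by simpa using hy)
      simpa using this)
    have h11 : (0 : ℝ) < (J y : ℝ) ^ 2 := by
      have : (0 : ℝ) < J y := by exact_mod_cast h10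
      positivity
    have h7 : ((J y : ℝ)) ^ 2 ≤ Real.logb 2 y := by
      rw [Real.le_logb_iff_rpow_le (by norm_num) (by exact_mod_cast (by omega : 0 < y))]
      have h8 : (((2 ^ (J y ^ 2)) : ℕ) : ℝ) ≤ y := by exact_mod_cast h4
      refine le_trans (le_of_eq ?_) h8
      have h9 : ((J y : ℝ)) ^ 2 = ((J y ^ 2 : ℕ) : ℝ) := by push_cast; ring
      rw [h9, Real.rpow_natCast]
      push_cast
      rfl
    exact div_le_div₀ (hS0 _) (hS h6.le) h11 h7

variable {Ω : Type*} [MeasurableSpace Ω] {P : Measure Ω}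

open Classical in
/-- the number of the events up to `y` -/
noncomputable def cntE (E : ℕ → Set Ω) (y : ℕ) (ω : Ω) : ℝ := ∑ n ∈ range (y + 1), (E n).indicator (fun _ => (1 : ℝ)) ω

theorem cntE_mono (E : ℕ → Set Ω) (ω : Ω) : Monotone (fun y => cntE E y ω) := by
  intro x y hxy
  refine sum_le_sum_of_subset_of_nonneg (range_subset_range.2 (by omega)) fun n _ _ => ?_
  exact Set.indicator_nonneg (fun _ _ => zero_le_one) _

theorem cntE_nonneg (E : ℕ → Set Ω) (ω : Ω) (y : ℕ) : 0 ≤ cntE E y ω :=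
  sum_nonneg fun n _ => Set.indicator_nonneg (fun _ _ => zero_le_one) _

/-- the inequality of Chebyshev -/
theorem cheb [IsProbabilityMeasure P] (E : ℕ → Set Ω) (hE : ∀ n, MeasurableSet (E n)) (y : ℕ) (t : ℝ) (ht : 0 < t) :
    P.real {ω | t ≤ |cntE E y ω - ∑ n ∈ range (y + 1), P.real (E n)|} ≤
      (∑ m ∈ range (y + 1), ∑ n ∈ range (y + 1), (P.real (E m ∩ E n) - P.real (E m) * P.real (E n))) / t ^ 2 := by
  set I : ℕ → Ω → ℝ := fun n => (E n).indicator (fun _ => (1 : ℝ)) with hI
  set w : ℕ → ℝ := fun n => P.real (E n) with hw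
  have hint : ∀ m n, Integrable (fun ω => (I m ω - w m) * (I n ω - w n)) P := by
    intro m n
    refine Integrable.of_bound (C := (1 + |w m|) * (1 + |w n|)) ?_ ?_
    · refine Measurable.aestronglyMeasurable ?_
      exact ((measurable_const.indicator (hE m)).sub measurable_const).mul
        ((measurable_const.indicator (hE n)).sub measurable_const)
    · refine Eventually.of_forall fun ω => ?_
      have hb : ∀ k, |I k ω - w k| ≤ 1 + |w k| := by
        intro k
        refine (abs_sub _ _).trans ?_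
        refine add_le_add_left ?_ _
        simp only [hI, Set.indicator]
        split_ifs <;> simp
      rw [Real.norm_eq_abs, abs_mul]
      exact mul_le_mul (hb m) (hb n) (abs_nonneg _) (by positivity)
  have hval : ∀ m n, ∫ ω, (I m ω - w m) * (I n ω - w n) ∂P = P.real (E m ∩ E n) - w m * w n := by
    intro m n
    have hi1 : ∀ k, Integrable (I k) P := fun k => (integrable_const (1 : ℝ)).indicator (hE k)
    have hi2 : Integrable (fun ω => I m ω * I n ω) P := by
      have : (fun ω => I m ω * I n ω) = (E m ∩ E n).indicator (fun _ => (1 : ℝ)) := by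
        ext ω
        simp only [hI, Set.indicator, Set.mem_inter_iff]
        by_cases h1 : ω ∈ E m <;> by_cases h2 : ω ∈ E n <;> simp [h1, h2]
      rw [this]
      exact (integrable_const (1 : ℝ)).indicator ((hE m).inter (hE n))
    have e1 : ∀ k, ∫ ω, I k ω ∂P = w k := by
      intro k
      simp only [hI]
      rw [integral_indicator (hE k), setIntegral_const, smul_eq_mul, mul_one]
    have e2 : ∫ ω, I m ω * I n ω ∂P = P.real (E m ∩ E n) := by
      have : (fun ω => I m ω * I n ω) = (E m ∩ E n).indicator (fun _ => (1 : ℝ)) := by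
        ext ω
        simp only [hI, Set.indicator, Set.mem_inter_iff]
        by_cases h1 : ω ∈ E m <;> by_cases h2 : ω ∈ E n <;> simp [h1, h2]
      rw [this, integral_indicator ((hE m).inter (hE n)), setIntegral_const, smul_eq_mul, mul_one]
    have e3 : (fun ω => (I m ω - w m) * (I n ω - w n)) =
        fun ω => (I m ω * I n ω - w n * I m ω) - (w m * I n ω - w m * w n) := by
      ext ω
      ring
    have e5 : ∫ ω, ((I m ω * I n ω - w n * I m ω) - (w m * I n ω - w m * w n)) ∂P =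
        (∫ ω, (I m ω * I n ω - w n * I m ω) ∂P) - ∫ ω, (w m * I n ω - w m * w n) ∂P :=
      integral_sub (f := fun ω => I m ω * I n ω - w n * I m ω) (g := fun ω => w m * I n ω - w m * w n)
        (hi2.sub ((hi1 m).const_mul _)) (((hi1 n).const_mul _).sub (integrable_const _))
    have e6 : ∫ ω, (I m ω * I n ω - w n * I m ω) ∂P = (∫ ω, I m ω * I n ω ∂P) - ∫ ω, w n * I m ω ∂P :=
      integral_sub hi2 ((hi1 m).const_mul _)
    have e7 : ∫ ω, (w m * I n ω - w m * w n) ∂P = (∫ ω, w m * I n ω ∂P) - ∫ _ω, w m * w n ∂P :=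
      integral_sub ((hi1 n).const_mul _) (integrable_const _)
    rw [e3, e5, e6, e7, integral_const_mul, integral_const_mul, e1, e1, e2, integral_const, probReal_univ, one_smul]
    ring
  have hsq : ∀ ω, (cntE E y ω - ∑ n ∈ range (y + 1), w n) ^ 2 =
      ∑ m ∈ range (y + 1), ∑ n ∈ range (y + 1), (I m ω - w m) * (I n ω - w n) := by
    intro ω
    unfold cntE
    rw [← sum_sub_distrib, sq, sum_mul_sum]
  have hint2 : Integrable (fun ω => (cntE E y ω - ∑ n ∈ range (y + 1), w n) ^ 2) P := by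
    simp only [hsq]
    exact integrable_finsetSum _ fun m _ => integrable_finsetSum _ fun n _ => hint m n
  have hE2 : ∫ ω, (cntE E y ω - ∑ n ∈ range (y + 1), w n) ^ 2 ∂P =
      ∑ m ∈ range (y + 1), ∑ n ∈ range (y + 1), (P.real (E m ∩ E n) - w m * w n) := by
    simp only [hsq]
    rw [integral_finsetSum _ fun m _ => integrable_finsetSum _ fun n _ => hint m n]
    refine sum_congr rfl fun m _ => ?_
    rw [integral_finsetSum _ fun n _ => hint m n]
    exact sum_congr rfl fun n _ => hval m n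
  rw [le_div_iff₀ (by positivity), mul_comm, ← hE2]
  have h1 := mul_meas_ge_le_integral_of_nonneg (μ := P)
    (f := fun ω => (cntE E y ω - ∑ n ∈ range (y + 1), w n) ^ 2) (Eventually.of_forall fun ω => sq_nonneg _) hint2
    (t ^ 2)
  refine le_trans (le_of_eq ?_) h1
  congr 2
  ext ω
  simp only [Set.mem_ofPred_eq]
  constructor
  · intro h2
    rw [← sq_abs (cntE E y ω - _)]
    exact pow_le_pow_left₀ ht.le h2 2
  · intro h2
    rw [← sq_abs (cntE E y ω - _)] at h2
    exact le_of_sq_le_sq h2 (abs_nonneg _)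

/-- the strong law -/
theorem lln [IsProbabilityMeasure P] (E : ℕ → Set Ω) (hE : ∀ n, MeasurableSet (E n)) (c C : ℝ)
    (hmean : Tendsto (fun y : ℕ => (∑ n ∈ range (y + 1), P.real (E n)) / Real.log y) atTop (𝓝 c))
    (hcov : ∀ᶠ y : ℕ in atTop,
      ∑ m ∈ range (y + 1), ∑ n ∈ range (y + 1), (P.real (E m ∩ E n) - P.real (E m) * P.real (E n)) ≤
        C * Real.log y) :
    ∀ᵐ ω ∂P, Tendsto (fun y : ℕ => cntE E y ω / Real.log y) atTop (𝓝 c) := by
  have hpow : Tendsto (fun j : ℕ => 2 ^ (j ^ 2)) atTop atTop := by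
    refine tendsto_atTop.2 fun b => ?_
    filter_upwards [eventually_ge_atTop (b + 1)] with j hj
    have h1 : j ≤ j ^ 2 := Nat.le_self_pow (by norm_num) j
    exact (by omega : b ≤ j ^ 2).trans (Nat.lt_two_pow_self).le
  have hlog2 : 0 < Real.log 2 := Real.log_pos (by norm_num)
  have hlogj : ∀ j : ℕ, Real.log ((2 ^ (j ^ 2) : ℕ) : ℝ) = (j : ℝ) ^ 2 * Real.log 2 := by
    intro j
    push_cast
    rw [Real.log_pow]
    push_cast
    ring
  have hC : 0 ≤ |C| := abs_nonneg C
  have hbad : ∀ k : ℕ, ∀ᵐ ω ∂P, ∀ᶠ j : ℕ in atTop, |cntE E (2 ^ (j ^ 2)) ω - ∑ n ∈ range (2 ^ (j ^ 2) + 1), P.real (E n)| <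
      1 / ((k : ℝ) + 1) * Real.log ((2 ^ (j ^ 2) : ℕ) : ℝ) := by
    intro k
    have h1 := bc (P := P) (fun j => {ω | 1 / ((k : ℝ) + 1) * Real.log ((2 ^ (j ^ 2) : ℕ) : ℝ) ≤
        |cntE E (2 ^ (j ^ 2)) ω - ∑ n ∈ range (2 ^ (j ^ 2) + 1), P.real (E n)|})
      (|C| * ((k : ℝ) + 1) ^ 2 / Real.log 2) (by positivity) ?_
    · filter_upwards [h1] with ω hω
      filter_upwards [hω] with j hj
      exact not_le.1 hj
    · filter_upwards [hpow.eventually hcov, eventually_ge_atTop 1] with j hj hj1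
      have hj0 : (0 : ℝ) < j := by exact_mod_cast hj1
      have ht : 0 < 1 / ((k : ℝ) + 1) * Real.log ((2 ^ (j ^ 2) : ℕ) : ℝ) := by
        rw [hlogj]
        positivity
      refine (cheb E hE (2 ^ (j ^ 2)) _ ht).trans ?_
      rw [div_le_iff₀ (by positivity)]
      refine hj.trans ?_
      rw [hlogj]
      have : |C| * ((k : ℝ) + 1) ^ 2 / Real.log 2 / (j : ℝ) ^ 2 * (1 / ((k : ℝ) + 1) * ((j : ℝ) ^ 2 * Real.log 2)) ^ 2 =
          |C| * ((j : ℝ) ^ 2 * Real.log 2) := by
        field_simp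
      rw [this]
      exact mul_le_mul_of_nonneg_right (le_abs_self C) (by positivity)
  filter_upwards [ae_all_iff.2 hbad] with ω hω
  have h2 : Tendsto (fun j : ℕ => cntE E (2 ^ (j ^ 2)) ω / Real.log ((2 ^ (j ^ 2) : ℕ) : ℝ)) atTop (𝓝 c) := by
    have hm := hmean.comp hpow
    have h3 : Tendsto (fun j : ℕ => cntE E (2 ^ (j ^ 2)) ω / Real.log ((2 ^ (j ^ 2) : ℕ) : ℝ) -
        (∑ n ∈ range (2 ^ (j ^ 2) + 1), P.real (E n)) / Real.log ((2 ^ (j ^ 2) : ℕ) : ℝ)) atTop (𝓝 0) := by
      rw [Metric.tendsto_atTop]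
      intro ε hε
      obtain ⟨k, hk⟩ := exists_nat_one_div_lt hε
      obtain ⟨J, hJ⟩ := eventually_atTop.1 ((hω k).and (eventually_ge_atTop 1))
      refine ⟨J, fun j hj => ?_⟩
      obtain ⟨h4, h5⟩ := hJ j hj
      have hj0 : (0 : ℝ) < j := by exact_mod_cast h5
      have ht : 0 < Real.log ((2 ^ (j ^ 2) : ℕ) : ℝ) := by
        rw [hlogj]
        positivity
      rw [Real.dist_eq, sub_zero, ← sub_div, abs_div, abs_of_pos ht, div_lt_iff₀ ht]
      refine h4.trans ?_
      exact mul_lt_mul_of_pos_right hk ht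
    have h4 := h3.add hm
    rw [zero_add] at h4
    refine h4.congr fun j => ?_
    simp only [Function.comp_apply]
    ring
  have h5 : Tendsto (fun j : ℕ => cntE E (2 ^ (j ^ 2)) ω / ((j : ℝ) ^ 2)) atTop (𝓝 (c * Real.log 2)) := by
    have h6 := h2.mul_const (Real.log 2)
    refine h6.congr' ?_
    filter_upwards [eventually_ge_atTop 1] with j hj
    have hj0 : (0 : ℝ) < j := by exact_mod_cast hj
    rw [hlogj]
    field_simp
  have h6 := interp (fun y => cntE E y ω) (cntE_mono E ω) (fun y => cntE_nonneg E ω y) _ h5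
  have h7 := h6.div_const (Real.log 2)
  rw [mul_div_assoc, div_self hlog2.ne', mul_one] at h7
  refine h7.congr fun y => ?_
  simp only [Real.logb]
  field_simp

end Pool.Agent.H559.SQ
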