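import Pool.Graph.R_pool_sql_team_ae5b0c61.H55.PNT

set_option autoImplicit false

/-! # The primes `p` with `j p + 1` prime are sparse -/

open Finset Filter Topology

namespace Pool.Agent.H559.SQ

theorem abel_id (f : ℕ → ℝ) (n : ℕ) :
    ∑ k ∈ range (n + 1), f k / k = ∑ k ∈ range (n + 1), (∑ i ∈ range (k + 1), f i) / (k * (k + 1)) +
      (∑ i ∈ range (n + 1), f i) / (n + 1) - f 0 := by
  induction n with
  | zero => simp
  | succ n ih =>
    rw [sum_range_succ, ih, sum_range_succ (fun k => (∑ i ∈ range (k + 1), f i) / (k * ((k : ℝ) + 1))) (n + 1),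
      sum_range_succ f (n + 1)]
    push_cast
    field_simp
    ring

theorem harm_log : Tendsto (fun n : ℕ => (∑ i ∈ range n, 1 / ((i : ℝ) + 1)) / Real.log n) atTop (𝓝 1) := by
  have h1 := Real.tendsto_harmonic_sub_log
  have h2 : Tendsto (fun n : ℕ => Real.log n) atTop atTop := Real.tendsto_log_atTop.comp tendsto_natCast_atTop_atTop
  have h3 := (h1.div_atTop h2).add_const 1
  rw [zero_add] at h3
  refine h3.congr' ?_
  filter_upwards [h2.eventually_ge_atTop 1] with n hn
  have h4 : ((harmonic n : ℚ) : ℝ) = ∑ i ∈ range n, 1 / ((i : ℝ) + 1) := by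
    unfold harmonic
    push_cast
    exact sum_congr rfl fun i _ => by rw [one_div]
  rw [h4]
  field_simp
  ring

theorem abel_lim (f : ℕ → ℝ) (δ : ℝ)
    (h : Tendsto (fun n : ℕ => (∑ k ∈ range (n + 1), f k) / n) atTop (𝓝 δ)) :
    Tendsto (fun n : ℕ => (∑ k ∈ range (n + 1), f k / k) / Real.log n) atTop (𝓝 δ) := by
  set F : ℕ → ℝ := fun n => ∑ k ∈ range (n + 1), f k with hF
  have h2 : Tendsto (fun n : ℕ => Real.log n) atTop atTop := Real.tendsto_log_atTop.comp tendsto_natCast_atTop_atTop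
  -- the difference
  have h3 : (fun k : ℕ => F k / (k * ((k : ℝ) + 1)) - δ / ((k : ℝ) + 1)) =o[atTop] fun k : ℕ => 1 / ((k : ℝ) + 1) := by
    rw [Asymptotics.isLittleO_iff_tendsto']
    · have h4 : Tendsto (fun n : ℕ => F n / n - δ) atTop (𝓝 (δ - δ)) := h.sub_const δ
      rw [sub_self] at h4
      refine h4.congr' ?_
      filter_upwards [eventually_ge_atTop 1] with k hk
      have : (0 : ℝ) < k := by exact_mod_cast hk
      field_simp
    · refine Eventually.of_forall fun k hk => ?_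
      have : (0 : ℝ) < 1 / ((k : ℝ) + 1) := by positivity
      linarith
  have h5 := h3.sum_range (fun k => by
    show (0 : ℝ) ≤ 1 / ((k : ℝ) + 1)
    positivity) Real.tendsto_sum_range_one_div_nat_succ_atTop
  have h6 : Tendsto (fun n : ℕ => (∑ i ∈ range n, (F i / (i * ((i : ℝ) + 1)) - δ / ((i : ℝ) + 1))) /
      Real.log n) atTop (𝓝 0) := by
    have h7 := (h5.tendsto_div_nhds_zero).mul harm_log
    rw [zero_mul] at h7
    refine h7.congr' ?_
    filter_upwards [h2.eventually_ge_atTop 1, eventually_ge_atTop 1] with n hn hn1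
    have h8 : 0 < ∑ i ∈ range n, 1 / ((i : ℝ) + 1) := sum_pos (fun i _ => by positivity) ⟨0, mem_range.2 hn1⟩
    field_simp
  have h9 : Tendsto (fun n : ℕ => (∑ i ∈ range n, F i / (i * ((i : ℝ) + 1))) / Real.log n) atTop (𝓝 δ) := by
    have h10 := h6.add (harm_log.const_mul δ)
    rw [zero_add, mul_one] at h10
    refine h10.congr fun n => ?_
    rw [sum_sub_distrib]
    have : ∑ i ∈ range n, δ / ((i : ℝ) + 1) = δ * ∑ i ∈ range n, 1 / ((i : ℝ) + 1) := by
      rw [mul_sum]
      exact sum_congr rfl fun i _ => by ring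
    rw [this]
    ring
  have h11 : Tendsto (fun n : ℕ => (F n / (n * ((n : ℝ) + 1)) + F n / (n + 1) - f 0) / Real.log n) atTop (𝓝 0) := by
    have h12 : Tendsto (fun n : ℕ => F n / (n * ((n : ℝ) + 1)) + F n / (n + 1) - f 0) atTop (𝓝 (0 + δ - f 0)) := by
      refine (Tendsto.add ?_ ?_).sub_const _
      · have h13 := h.mul (tendsto_one_div_add_atTop_nhds_zero_nat (𝕜 := ℝ))
        rw [mul_zero] at h13
        refine h13.congr fun n => ?_
        rw [div_mul_div_comm, mul_one]
      · have h13 := h.mul (tendsto_natCast_div_add_atTop (1 : ℝ))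
        rw [mul_one] at h13
        refine h13.congr' ?_
        filter_upwards [eventually_ge_atTop 1] with n hn
        have : (0 : ℝ) < n := by exact_mod_cast hn
        field_simp
        simp only [hF]
    exact h12.div_atTop h2
  have h14 := h9.add h11
  rw [add_zero] at h14
  refine h14.congr fun n => ?_
  have h15 := abel_id f n
  rw [sum_range_succ (fun k => (∑ i ∈ range (k + 1), f i) / (k * ((k : ℝ) + 1))) n] at h15
  rw [h15]
  simp only [hF]
  ring

/-- the logarithmic sum over the primes `p` with `d ∣ j p + 1` -/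
theorem div_sum (j d : ℕ) (hd : 0 < d) (hjd : Nat.Coprime j d) :
    Tendsto (fun y : ℕ => (∑ p ∈ range (y + 1), (if p.Prime ∧ d ∣ j * p + 1 then Real.log p / p else 0)) / Real.log y)
      atTop (𝓝 ((d.totient : ℝ)⁻¹)) := by
  have := NeZero.of_pos hd
  set u : (ZMod d)ˣ := ZMod.unitOfCoprime j hjd with hu
  set r : ZMod d := ((-u⁻¹ : (ZMod d)ˣ) : ZMod d) with hr
  have hru : IsUnit r := Units.isUnit _
  have hiff : ∀ p : ℕ, (p : ZMod d) = r ↔ d ∣ j * p + 1 := by
    intro p
    rw [← ZMod.natCast_eq_zero_iff]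
    push_cast
    have hju : (j : ZMod d) = (u : ZMod d) := by
      rw [hu, ZMod.coe_unitOfCoprime]
    rw [hju, hr]
    push_cast
    constructor
    · intro h
      rw [h, mul_neg, Units.mul_inv, neg_add_cancel]
    · intro h
      have h1 : (u : ZMod d) * p = -1 := eq_neg_of_add_eq_zero_left h
      have h2 : ((u⁻¹ : (ZMod d)ˣ) : ZMod d) * ((u : ZMod d) * p) = ((u⁻¹ : (ZMod d)ˣ) : ZMod d) * (-1) := by rw [h1]
      rw [← mul_assoc, Units.inv_mul, one_mul, mul_neg, mul_one] at h2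
      exact h2
  have h1 := (Pool.Agent.H55.PNT.theta_ap (q := d) (a := r) hru).comp (tendsto_natCast_atTop_atTop (R := ℝ))
  have h2 := abel_lim (fun p => if p.Prime ∧ d ∣ j * p + 1 then Real.log p else 0) _ (h1.congr fun n => ?_)
  · refine h2.congr fun y => ?_
    congr 1
    refine sum_congr rfl fun p _ => ?_
    split_ifs <;> simp
  · simp only [Function.comp_apply, Nat.floor_natCast]
    congr 1
    rw [sum_filter, range_eq_Ico, sum_eq_sum_Ico_succ_bot (by omega)]
    have h0 : ¬ (Nat.Prime 0 ∧ d ∣ j * 0 + 1) := fun h => Nat.not_prime_zero h.1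
    rw [if_neg h0, zero_add]
    refine sum_congr rfl fun p _ => ?_
    simp only [hiff]

theorem not_summable_not_dvd (j : ℕ) (hj : j ≠ 0) (M : ℝ) :
    ∃ T : Finset ℕ, (∀ l ∈ T, l.Prime ∧ ¬ l ∣ j) ∧ M ≤ ∑ l ∈ T, 1 / ((l : ℝ) - 1) := by
  have h1 : ¬ Summable (fun l : {p : ℕ // p.Prime ∧ ¬ p ∣ j} => 1 / ((l : ℕ) : ℝ)) := by
    intro h
    have h2 : Summable (Set.indicator {p : ℕ | p.Prime} (fun n : ℕ => (1 : ℝ) / n)) := by
      have h3 : Summable (Set.indicator {p : ℕ | p.Prime ∧ ¬ p ∣ j} (fun n : ℕ => (1 : ℝ) / n)) :=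
        (summable_subtype_iff_indicator (f := fun n : ℕ => (1 : ℝ) / n)
          (s := {p : ℕ | p.Prime ∧ ¬ p ∣ j})).1 h
      have h4 : Summable (Set.indicator {p : ℕ | p.Prime ∧ p ∣ j} (fun n : ℕ => (1 : ℝ) / n)) := by
        refine summable_of_hasFiniteSupport (Set.Finite.subset (Set.finite_Iic j) fun p hp => ?_)
        by_contra hcon
        apply hp
        refine Set.indicator_of_notMem (fun h5 => hcon ?_) _
        exact Nat.le_of_dvd (Nat.pos_of_ne_zero hj) h5.2
      refine (h3.add h4).congr fun p => ?_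
      by_cases hp : p.Prime <;> by_cases hpj : p ∣ j <;> simp [Set.indicator, hp, hpj]
    exact not_summable_one_div_on_primes h2
  by_contra hcon
  push Not at hcon
  apply h1
  refine summable_of_sum_le (c := M) (fun l => by positivity) fun u => ?_
  have h2 := hcon (u.map (Function.Embedding.subtype _)) (by
    intro l hl
    obtain ⟨x, _, rfl⟩ := mem_map.1 hl
    exact x.2)
  rw [sum_map] at h2
  refine le_trans (sum_le_sum fun l _ => ?_) h2.le
  have h3 : (2 : ℝ) ≤ ((l : ℕ) : ℝ) := by exact_mod_cast l.2.1.two_le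
  simp only [Function.Embedding.subtype_apply]
  apply one_div_le_one_div_of_le <;> linarith

/-- the primes `p` with `j p + 1` prime are sparse -/
theorem sparse (j : ℕ) (hj : j ≠ 0) :
    Tendsto (fun y : ℕ => (∑ p ∈ range (y + 1), (if p.Prime ∧ (j * p + 1).Prime then Real.log p / p else 0)) /
      Real.log y) atTop (𝓝 0) := by
  have hlog : Tendsto (fun n : ℕ => Real.log n) atTop atTop :=
    Real.tendsto_log_atTop.comp tendsto_natCast_atTop_atTop
  rw [Metric.tendsto_atTop]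
  intro ε hε
  obtain ⟨T, hT, hm⟩ := not_summable_not_dvd j hj (max 1 (4 / ε))
  set m := ∑ l ∈ T, 1 / ((l : ℝ) - 1) with hmd
  have hm1 : 1 ≤ m := (le_max_left _ _).trans hm
  have hm2 : 4 / ε ≤ m := (le_max_right _ _).trans hm
  have hm0 : 0 < m := by linarith
  -- weights
  set g : ℕ → ℕ → ℝ := fun d p => if p.Prime ∧ d ∣ j * p + 1 then Real.log p / p else 0 with hg
  have hlim : ∀ d : ℕ, 0 < d → Nat.Coprime j d →
      Tendsto (fun y : ℕ => (∑ p ∈ range (y + 1), g d p) / Real.log y) atTop (𝓝 ((d.totient : ℝ)⁻¹)) :=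
    fun d hd hjd => div_sum j d hd hjd
  have hcop : ∀ l ∈ T, Nat.Coprime j l := fun l hl => ((hT l hl).1.coprime_iff_not_dvd.2 (hT l hl).2).symm
  set dd : ℕ → ℕ → ℕ := fun l l' => if l = l' then l else l * l' with hdd
  have hddc : ∀ l ∈ T, ∀ l' ∈ T, 0 < dd l l' ∧ Nat.Coprime j (dd l l') := by
    intro l hl l' hl'
    simp only [hdd]
    split_ifs
    · exact ⟨(hT l hl).1.pos, hcop l hl⟩
    · exact ⟨Nat.mul_pos (hT l hl).1.pos (hT l' hl').1.pos, (hcop l hl).mul_right (hcop l' hl')⟩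
  have hdiv : ∀ l ∈ T, ∀ l' ∈ T, ∀ n : ℕ, dd l l' ∣ n ↔ l ∣ n ∧ l' ∣ n := by
    intro l hl l' hl' n
    simp only [hdd]
    split_ifs with h
    · rw [h, and_self]
    · constructor
      · intro h1
        exact ⟨(Dvd.intro _ rfl).trans h1, (Dvd.intro_left _ rfl).trans h1⟩
      · rintro ⟨h1, h2⟩
        exact Nat.Coprime.mul_dvd_of_dvd_of_dvd (((Nat.coprime_primes (hT l hl).1 (hT l' hl').1).2 h)) h1 h2
  -- the quadratic form
  set Y : ℕ → ℝ := fun p => ∑ l ∈ T, ∑ l' ∈ T, g (dd l l') p - 2 * m * ∑ l ∈ T, g l p + m ^ 2 * g 1 p with hY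
  have hYeq : ∀ p : ℕ, p.Prime → Y p = Real.log p / p *
      ((∑ l ∈ T, if l ∣ j * p + 1 then (1 : ℝ) else 0) - m) ^ 2 := by
    intro p hp
    have e1 : ∀ l, g l p = Real.log p / p * (if l ∣ j * p + 1 then (1 : ℝ) else 0) := by
      intro l
      simp only [hg]
      by_cases h : l ∣ j * p + 1
      · rw [if_pos ⟨hp, h⟩, if_pos h, mul_one]
      · rw [if_neg (fun h' => h h'.2), if_neg h, mul_zero]
    have e2 : ∀ l ∈ T, ∀ l' ∈ T, g (dd l l') p = Real.log p / p * ((if l ∣ j * p + 1 then (1 : ℝ) else 0) *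
        (if l' ∣ j * p + 1 then (1 : ℝ) else 0)) := by
      intro l hl l' hl'
      rw [e1]
      congr 1
      by_cases h1 : l ∣ j * p + 1 <;> by_cases h2 : l' ∣ j * p + 1 <;> simp [hdiv l hl l' hl', h1, h2]
    simp only [hY]
    rw [sum_congr rfl (fun l hl => sum_congr rfl (fun l' hl' => e2 l hl l' hl')), sum_congr rfl (fun l _ => e1 l), e1 1,
      if_pos (one_dvd _), ← mul_sum]
    simp only [← mul_sum]
    rw [← sum_mul]
    ring
  have hYnn : ∀ p : ℕ, 0 ≤ Y p := by
    intro p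
    by_cases hp : p.Prime
    · rw [hYeq p hp]
      exact mul_nonneg (div_nonneg (Real.log_natCast_nonneg p) (Nat.cast_nonneg p)) (sq_nonneg _)
    · have : ∀ l, g l p = 0 := fun l => if_neg (fun h => hp h.1)
      simp only [hY, this, sum_const_zero, mul_zero, sub_zero, add_zero, le_refl]
  -- the limit of the average of `Y`
  set lam : ℝ := ∑ l ∈ T, ∑ l' ∈ T, (((dd l l').totient : ℝ))⁻¹ - 2 * m * ∑ l ∈ T, ((l.totient : ℝ))⁻¹ +
    m ^ 2 * (((1 : ℕ).totient : ℝ))⁻¹ with hlam
  have hYlim : Tendsto (fun y : ℕ => (∑ p ∈ range (y + 1), Y p) / Real.log y) atTop (𝓝 lam) := by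
    have h1 : Tendsto (fun y : ℕ => ∑ l ∈ T, ∑ l' ∈ T, (∑ p ∈ range (y + 1), g (dd l l') p) / Real.log y) atTop
        (𝓝 (∑ l ∈ T, ∑ l' ∈ T, (((dd l l').totient : ℝ))⁻¹)) :=
      tendsto_finsetSum _ fun l hl => tendsto_finsetSum _ fun l' hl' =>
        hlim _ (hddc l hl l' hl').1 (hddc l hl l' hl').2
    have h2 : Tendsto (fun y : ℕ => ∑ l ∈ T, (∑ p ∈ range (y + 1), g l p) / Real.log y) atTop
        (𝓝 (∑ l ∈ T, ((l.totient : ℝ))⁻¹)) :=
      tendsto_finsetSum _ fun l hl => hlim _ (hT l hl).1.pos (hcop l hl)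
    have h3 := hlim 1 one_pos (Nat.coprime_one_right j)
    have h4 := (h1.sub (h2.const_mul (2 * m))).add (h3.const_mul (m ^ 2))
    refine h4.congr fun y => ?_
    have e3 : ∑ p ∈ range (y + 1), ∑ l ∈ T, ∑ l' ∈ T, g (dd l l') p =
        ∑ l ∈ T, ∑ l' ∈ T, ∑ p ∈ range (y + 1), g (dd l l') p := by
      rw [sum_comm]
      exact sum_congr rfl fun l _ => sum_comm
    have e4 : ∑ p ∈ range (y + 1), ∑ l ∈ T, g l p = ∑ l ∈ T, ∑ p ∈ range (y + 1), g l p := sum_comm
    have e5 : ∑ p ∈ range (y + 1), Y p = ∑ l ∈ T, ∑ l' ∈ T, ∑ p ∈ range (y + 1), g (dd l l') p -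
        2 * m * ∑ l ∈ T, ∑ p ∈ range (y + 1), g l p + m ^ 2 * ∑ p ∈ range (y + 1), g 1 p := by
      simp only [hY]
      rw [sum_add_distrib, sum_sub_distrib, ← mul_sum, ← mul_sum, e3, e4]
    rw [e5]
    simp only [← sum_div]
    ring
  have hlam_le : lam ≤ m := by
    have e1 : ∀ l ∈ T, ((l.totient : ℝ))⁻¹ = 1 / ((l : ℝ) - 1) := by
      intro l hl
      rw [Nat.totient_prime (hT l hl).1, Nat.cast_sub (hT l hl).1.one_le, Nat.cast_one, one_div]
    have e2 : ∀ l ∈ T, ∀ l' ∈ T, (((dd l l').totient : ℝ))⁻¹ ≤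
        1 / ((l : ℝ) - 1) * (1 / ((l' : ℝ) - 1)) + if l = l' then 1 / ((l : ℝ) - 1) else 0 := by
      intro l hl l' hl'
      have hl1 : (1 : ℝ) < l := by exact_mod_cast (hT l hl).1.one_lt
      have hl2 : (1 : ℝ) < l' := by exact_mod_cast (hT l' hl').1.one_lt
      simp only [hdd]
      split_ifs with h
      · rw [e1 l hl]
        have : 0 ≤ 1 / ((l : ℝ) - 1) * (1 / ((l' : ℝ) - 1)) :=
          mul_nonneg (div_nonneg zero_le_one (by linarith)) (div_nonneg zero_le_one (by linarith))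
        linarith
      · rw [Nat.totient_mul ((Nat.coprime_primes (hT l hl).1 (hT l' hl').1).2 h)]
        push_cast
        rw [mul_inv, e1 l hl, e1 l' hl', add_zero]
    have e3 : ∑ l ∈ T, ∑ l' ∈ T, (((dd l l').totient : ℝ))⁻¹ ≤ m ^ 2 + m := by
      calc ∑ l ∈ T, ∑ l' ∈ T, (((dd l l').totient : ℝ))⁻¹ ≤
          ∑ l ∈ T, ∑ l' ∈ T, (1 / ((l : ℝ) - 1) * (1 / ((l' : ℝ) - 1)) + if l = l' then 1 / ((l : ℝ) - 1) else 0) :=
          sum_le_sum fun l hl => sum_le_sum fun l' hl' => e2 l hl l' hl'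
        _ = m ^ 2 + m := by
          simp only [sum_add_distrib]
          rw [← sum_mul_sum, sq]
          congr 1
          rw [hmd]
          refine sum_congr rfl fun l hl => ?_
          rw [sum_ite_eq, if_pos hl]
    rw [hlam, sum_congr rfl e1, Nat.totient_one, Nat.cast_one, inv_one, mul_one]
    nlinarith
  -- conclusion
  set B : ℕ := T.sup id with hB
  have hpt : ∀ p : ℕ, m ^ 2 * (if p.Prime ∧ (j * p + 1).Prime then Real.log p / p else 0) ≤
      Y p + m ^ 2 * (if p ≤ B then Real.log p / p else 0) := by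
    intro p
    have hlp : 0 ≤ Real.log p / p := div_nonneg (Real.log_natCast_nonneg p) (Nat.cast_nonneg p)
    by_cases hp : p.Prime ∧ (j * p + 1).Prime
    · rw [if_pos hp]
      by_cases hpB : p ≤ B
      · rw [if_pos hpB]
        linarith [hYnn p]
      · rw [if_neg hpB, mul_zero, add_zero, hYeq p hp.1]
        have h0 : (∑ l ∈ T, if l ∣ j * p + 1 then (1 : ℝ) else 0) = 0 := by
          refine sum_eq_zero fun l hl => if_neg fun hd => ?_
          have h1 := (Nat.prime_dvd_prime_iff_eq (hT l hl).1 hp.2).1 hd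
          have h2 : l ≤ B := le_sup (f := id) hl
          have h3 : p ≤ j * p := Nat.le_mul_of_pos_left p (Nat.pos_of_ne_zero hj)
          omega
        rw [h0]
        apply le_of_eq
        ring
    · rw [if_neg hp, mul_zero]
      have h1 : 0 ≤ m ^ 2 * (if p ≤ B then Real.log p / p else 0) := by
        split_ifs
        · positivity
        · simp
      linarith [hYnn p]
  set K : ℝ := ∑ p ∈ range (B + 1), Real.log p / p with hK
  have hsumB : ∀ y : ℕ, ∑ p ∈ range (y + 1), (if p ≤ B then Real.log p / p else 0) ≤ K := by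
    intro y
    rw [← sum_filter, hK]
    refine sum_le_sum_of_subset_of_nonneg (fun p hp => ?_) fun p _ _ =>
      div_nonneg (Real.log_natCast_nonneg p) (Nat.cast_nonneg p)
    have := (mem_filter.1 hp).2
    exact mem_range.2 (by omega)
  have hev1 : ∀ᶠ y : ℕ in atTop, (∑ p ∈ range (y + 1), Y p) / Real.log y < 2 * m :=
    hYlim.eventually (gt_mem_nhds (by linarith))
  obtain ⟨N, hN⟩ := eventually_atTop.1 (hev1.and ((hlog.eventually_ge_atTop (max 1 (m * K))).and
    (hlog.eventually_gt_atTop 0)))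
  refine ⟨N, fun y hy => ?_⟩
  obtain ⟨h1, h2, h3⟩ := hN y hy
  have hKL : m * K ≤ Real.log y := (le_max_right _ _).trans h2
  rw [div_lt_iff₀ h3] at h1
  have hnn : 0 ≤ ∑ p ∈ range (y + 1), (if p.Prime ∧ (j * p + 1).Prime then Real.log p / p else 0) := by
    refine sum_nonneg fun p _ => ?_
    split_ifs
    · exact div_nonneg (Real.log_natCast_nonneg p) (Nat.cast_nonneg p)
    · exact le_refl _
  rw [Real.dist_eq, sub_zero, abs_of_nonneg (div_nonneg hnn h3.le), div_lt_iff₀ h3]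
  have h4 : m ^ 2 * ∑ p ∈ range (y + 1), (if p.Prime ∧ (j * p + 1).Prime then Real.log p / p else 0) ≤
      (∑ p ∈ range (y + 1), Y p) + m ^ 2 * K := by
    rw [mul_sum]
    refine (sum_le_sum fun p _ => hpt p).trans ?_
    rw [sum_add_distrib, ← mul_sum]
    have := mul_le_mul_of_nonneg_left (hsumB y) (sq_nonneg m)
    linarith
  have h5 : m ^ 2 * K ≤ m * Real.log y := by nlinarith
  have h6 : m ^ 2 * ∑ p ∈ range (y + 1), (if p.Prime ∧ (j * p + 1).Prime then Real.log p / p else 0) <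
      3 * m * Real.log y := by linarith
  have h7 : 3 * m * Real.log y < m ^ 2 * (ε * Real.log y) := by
    rw [div_le_iff₀ hε] at hm2
    have : 3 * m < m ^ 2 * ε := by nlinarith
    nlinarith
  exact lt_of_mul_lt_mul_left (h6.trans h7) (sq_nonneg m)

end Pool.Agent.H559.SQ
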