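import Mathlib

set_option autoImplicit false

/-! # The numbers `(a ^ n - b ^ n) / (a - b)` -/

open Finset Filter Topology

namespace Pool.Agent.H559.SQ

/-- `M_n(a, b)` -/
def MM (a b : ℤ) (n : ℕ) : ℤ := ∑ i ∈ range n, a ^ i * b ^ (n - 1 - i)

theorem MM_mul (a b : ℤ) (n : ℕ) : MM a b n * (a - b) = a ^ n - b ^ n := (Commute.all a b).geom_sum₂_mul n

/-- the prime divisors of `M_p` which do not divide `p (a - b)` are `1` modulo `p` -/
theorem dvd_pred (a b : ℤ) (hab : IsCoprime a b) (p q : ℕ) (hp : p.Prime) (hq : q.Prime) (hd : (q : ℤ) ∣ MM a b p)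
    (hpab : ¬ (p : ℤ) ∣ a - b) : p ∣ q - 1 := by
  have := Fact.mk hq
  have := Fact.mk hp
  have h1 : ((MM a b p : ℤ) : ZMod q) = 0 := (ZMod.intCast_zmod_eq_zero_iff_dvd _ _).2 hd
  have h2 : ((a : ZMod q)) ^ p = (b : ZMod q) ^ p := by
    have h3 := congrArg (fun t : ℤ => (t : ZMod q)) (MM_mul a b p)
    simp only [Int.cast_mul, h1, zero_mul, Int.cast_sub, Int.cast_pow] at h3
    exact (sub_eq_zero.1 h3.symm)
  have hb : (b : ZMod q) ≠ 0 := by
    intro hb
    rw [hb, zero_pow hp.ne_zero] at h2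
    have ha := pow_eq_zero_iff (hp.ne_zero) |>.1 h2
    have ha' := (ZMod.intCast_zmod_eq_zero_iff_dvd _ _).1 ha
    have hb' := (ZMod.intCast_zmod_eq_zero_iff_dvd _ _).1 hb
    have h4 := hab.isUnit_of_dvd' ha' hb'
    have h5 := Int.isUnit_iff.1 h4
    have := hq.two_le
    omega
  set t : ZMod q := (a : ZMod q) / b with ht
  have ht1 : t ^ p = 1 := by
    rw [ht, div_pow, h2, div_self (pow_ne_zero _ hb)]
  by_cases htt : t = 1
  · exfalso
    have hab2 : (a : ZMod q) = b := by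
      rw [ht, div_eq_one_iff_eq hb] at htt
      exact htt
    have h3 : ((MM a b p : ℤ) : ZMod q) = (p : ZMod q) * (b : ZMod q) ^ (p - 1) := by
      unfold MM
      push_cast
      rw [hab2]
      rw [sum_congr rfl (g := fun _ => (b : ZMod q) ^ (p - 1)) (fun i hi => by
        rw [← pow_add]
        congr 1
        have := mem_range.1 hi
        omega), sum_const, card_range, nsmul_eq_mul]
    rw [h1] at h3
    have h4 : (p : ZMod q) = 0 := by
      rcases mul_eq_zero.1 h3.symm with h | h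
      · exact h
      · exact absurd (pow_eq_zero_iff (by
          have := hp.two_le
          omega) |>.1 h) hb
    have h5 : q ∣ p := (ZMod.natCast_eq_zero_iff _ _).1 h4
    have h6 : q = p := (Nat.prime_dvd_prime_iff_eq hq hp).1 h5
    apply hpab
    rw [← h6]
    apply (ZMod.intCast_zmod_eq_zero_iff_dvd _ _).1
    push_cast
    rw [hab2, sub_self]
  · have ho : orderOf t = p := orderOf_eq_prime ht1 htt
    have ht0 : t ≠ 0 := by
      intro h0
      rw [h0, zero_pow hp.ne_zero] at ht1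
      exact zero_ne_one ht1
    have h7 : t ^ (q - 1) = 1 := ZMod.pow_card_sub_one_eq_one ht0
    rw [← ho]
    exact orderOf_dvd_of_pow_eq_one h7

theorem MM_lim (a b : ℤ) (ha : 1 < a) (h1 : -a < b) (h2 : b < a) :
    Tendsto (fun n : ℕ => (MM a b n : ℝ) / (a : ℝ) ^ n) atTop (𝓝 (1 / ((a : ℝ) - b))) := by
  have ha0 : (0 : ℝ) < a := by exact_mod_cast (by omega : 0 < a)
  have hab : (0 : ℝ) < (a : ℝ) - b := by
    have : (b : ℝ) < a := by exact_mod_cast h2
    linarith
  have hr : |(b : ℝ) / a| < 1 := by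
    rw [abs_div, abs_of_pos ha0, div_lt_one ha0, abs_lt]
    constructor
    · exact_mod_cast h1
    · exact_mod_cast h2
  have h3 := tendsto_pow_atTop_nhds_zero_of_abs_lt_one hr
  have h4 : Tendsto (fun n : ℕ => (1 - ((b : ℝ) / a) ^ n) / ((a : ℝ) - b)) atTop (𝓝 ((1 - 0) / ((a : ℝ) - b))) :=
    (tendsto_const_nhds.sub h3).div_const _
  rw [sub_zero] at h4
  refine h4.congr fun n => ?_
  have h5 : (MM a b n : ℝ) * ((a : ℝ) - b) = (a : ℝ) ^ n - (b : ℝ) ^ n := by exact_mod_cast MM_mul a b n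
  have h6 : (MM a b n : ℝ) = ((a : ℝ) ^ n - (b : ℝ) ^ n) / ((a : ℝ) - b) := by
    rw [eq_div_iff hab.ne', h5]
  rw [h6, div_pow]
  field_simp

/-- the size of `M_n`, and `M_n` increases for large `n` -/
theorem MM_size (a b : ℤ) (ha : 1 < a) (h1 : -a < b) (h2 : b < a) :
    Tendsto (fun n : ℕ => Real.log ((MM a b n).natAbs) / n) atTop (𝓝 (Real.log a)) ∧
    (∃ n₀ : ℕ, ∀ n ≥ n₀, 0 < MM a b n ∧ MM a b n < MM a b (n + 1)) := by
  have ha0 : (0 : ℝ) < a := by exact_mod_cast (by omega : 0 < a)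
  have ha1 : (1 : ℝ) < a := by exact_mod_cast ha
  have hab : (0 : ℝ) < (a : ℝ) - b := by
    have : (b : ℝ) < a := by exact_mod_cast h2
    linarith
  have hc : 0 < 1 / ((a : ℝ) - b) := by positivity
  have hl := MM_lim a b ha h1 h2
  have hpos : ∀ᶠ n : ℕ in atTop, 0 < (MM a b n : ℝ) := by
    filter_upwards [hl.eventually (lt_mem_nhds hc)] with n hn
    have h3 : (0 : ℝ) < (a : ℝ) ^ n := by positivity
    exact (div_pos_iff_of_pos_right h3).1 hn
  refine ⟨?_, ?_⟩
  · have h3 := (Real.continuousAt_log hc.ne').tendsto.comp hl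
    have h4 := h3.div_atTop (tendsto_natCast_atTop_atTop (R := ℝ))
    have h5 := h4.const_add (Real.log a)
    rw [add_zero] at h5
    refine h5.congr' ?_
    filter_upwards [hpos, eventually_ge_atTop 1] with n hn hn1
    have hn0 : (0 : ℝ) < n := by exact_mod_cast hn1
    simp only [Function.comp_apply]
    rw [Real.log_div hn.ne' (by positivity), Real.log_pow]
    have h6 : ((MM a b n).natAbs : ℝ) = (MM a b n : ℝ) := by
      have h7 : 0 < MM a b n := by exact_mod_cast hn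
      have h8 : ((MM a b n).natAbs : ℤ) = MM a b n := Int.natAbs_of_nonneg h7.le
      rw [← Int.cast_natCast (R := ℝ), h8]
    rw [h6]
    field_simp
    ring
  · have h3 := ((tendsto_add_atTop_iff_nat 1).2 hl).div hl hc.ne'
    rw [div_self hc.ne'] at h3
    have h4 : ∀ᶠ n : ℕ in atTop, 1 / (a : ℝ) < (MM a b (n + 1) : ℝ) / (a : ℝ) ^ (n + 1) / ((MM a b n : ℝ) / (a : ℝ) ^ n) :=
      h3.eventually (lt_mem_nhds (by rw [div_lt_one ha0]; exact ha1))
    obtain ⟨n₀, hn₀⟩ := eventually_atTop.1 (hpos.and h4)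
    refine ⟨n₀, fun n hn => ?_⟩
    obtain ⟨h5, h6⟩ := hn₀ n hn
    refine ⟨by exact_mod_cast h5, ?_⟩
    have h7 : (MM a b (n + 1) : ℝ) / (a : ℝ) ^ (n + 1) / ((MM a b n : ℝ) / (a : ℝ) ^ n) =
        (1 / a) * ((MM a b (n + 1) : ℝ) / MM a b n) := by
      rw [pow_succ]
      field_simp
    rw [h7] at h6
    have h8 : 1 < (MM a b (n + 1) : ℝ) / MM a b n := by
      by_contra hcon
      push Not at hcon
      have : 1 / (a : ℝ) * ((MM a b (n + 1) : ℝ) / MM a b n) ≤ 1 / a * 1 := by gcongr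
      linarith
    rw [lt_div_iff₀ h5, one_mul] at h8
    exact_mod_cast h8

end Pool.Agent.H559.SQ
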