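import Pool.Agent.H559.SQ.Av
import Pool.Agent.H559.SQ.LLN
import Pool.Agent.H559.SQ.Rep
import Pool.Agent.H559.SQ.Bad

set_option autoImplicit false

/-! # The law of Lenstra, Pomerance and Wagstaff in the hybrid random sieve -/

open Finset MeasureTheory ProbabilityTheory Filter Topology
open Pool.Agent.T2H32.BF (Model prob V V_pos V_anti V_ratio mertens)
open Pool.Agent.H559.HY (RS)
open Pool.Agent.H559.BS (Limit)

namespace Pool.Agent.H559.SQ

/-- the cut -/
noncomputable def Wk (κ : ℝ) (v : ℕ) : ℕ := ⌊κ * Real.log v⌋₊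

theorem log_top' : Tendsto (fun n : ℕ => Real.log n) atTop atTop :=
  Real.tendsto_log_atTop.comp tendsto_natCast_atTop_atTop

/-- the sequences of exponential growth -/
theorem W_asym (κ : ℝ) (hκ : 0 < κ) (v : ℕ → ℕ) (l : ℝ) (hl : 0 < l)
    (hv : Tendsto (fun n : ℕ => Real.log (v n) / n) atTop (𝓝 l)) :
    Tendsto (fun n : ℕ => (Wk κ (v n) : ℝ) / n) atTop (𝓝 (κ * l)) ∧
    Tendsto (fun n : ℕ => Wk κ (v n)) atTop atTop ∧
    Tendsto (fun n : ℕ => Real.log (Wk κ (v n)) / Real.log n) atTop (𝓝 1) := by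
  have h1 : Tendsto (fun n : ℕ => κ * Real.log (v n) / n) atTop (𝓝 (κ * l)) := by
    refine (hv.const_mul κ).congr fun n => by ring
  have h2 : Tendsto (fun n : ℕ => (Wk κ (v n) : ℝ) / n) atTop (𝓝 (κ * l)) := by
    have h3 : Tendsto (fun n : ℕ => κ * Real.log (v n) / n - 1 / (n : ℝ)) atTop (𝓝 (κ * l - 0)) :=
      h1.sub tendsto_one_div_atTop_nhds_zero_nat
    rw [sub_zero] at h3
    refine tendsto_of_tendsto_of_tendsto_of_le_of_le' h3 h1 ?_ ?_
    · filter_upwards [eventually_ge_atTop 1] with n hn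
      have hn0 : (0 : ℝ) < n := by exact_mod_cast hn
      rw [← sub_div]
      gcongr
      have := Nat.lt_floor_add_one (κ * Real.log (v n))
      unfold Wk
      linarith
    · filter_upwards [eventually_ge_atTop 1] with n hn
      have hn0 : (0 : ℝ) < n := by exact_mod_cast hn
      gcongr
      exact Nat.floor_le (mul_nonneg hκ.le (Real.log_natCast_nonneg _))
  have hkl : 0 < κ * l := mul_pos hκ hl
  have h3 : Tendsto (fun n : ℕ => (Wk κ (v n) : ℝ)) atTop atTop := by
    have h4 := h2.pos_mul_atTop hkl (tendsto_natCast_atTop_atTop (R := ℝ))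
    refine h4.congr' ?_
    filter_upwards [eventually_ge_atTop 1] with n hn
    have hn0 : (0 : ℝ) < n := by exact_mod_cast hn
    field_simp
  refine ⟨h2, tendsto_natCast_atTop_iff.1 h3, ?_⟩
  have h4 := (Real.continuousAt_log hkl.ne').tendsto.comp h2
  have h5 := (h4.div_atTop log_top').add_const 1
  rw [zero_add] at h5
  refine h5.congr' ?_
  filter_upwards [log_top'.eventually_ge_atTop 1, eventually_ge_atTop 1, h3.eventually_ge_atTop 1] with n hn hn1 hn2
  have hn0 : (0 : ℝ) < n := by exact_mod_cast hn1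
  simp only [Function.comp_apply]
  rw [Real.log_div (by linarith) hn0.ne']
  field_simp
  ring

theorem pv_asym (z : ℕ → ℕ) (hz : Limit z) (κ : ℝ) (hκ : 0 < κ) (v : ℕ → ℕ) (l : ℝ) (hl : 0 < l)
    (hv : Tendsto (fun n : ℕ => Real.log (v n) / n) atTop (𝓝 l)) :
    Tendsto (fun n : ℕ => pv z (Wk κ) (v n) * (n / Real.log n)) atTop
      (𝓝 (Real.exp Real.eulerMascheroniConstant / l)) ∧
    ∀ᶠ n : ℕ in atTop, Real.exp (2 * Real.log (v n) / (Wk κ (v n) * Real.log (Wk κ (v n)))) - 1 ≤
      (4 / κ + 2) / Real.log n := by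
  obtain ⟨h1, h2, h3⟩ := W_asym κ hκ v l hl hv
  have hvt : Tendsto (fun n : ℕ => Real.log (v n)) atTop atTop := by
    have h4 := hv.pos_mul_atTop hl (tendsto_natCast_atTop_atTop (R := ℝ))
    refine h4.congr' ?_
    filter_upwards [eventually_ge_atTop 1] with n hn
    have hn0 : (0 : ℝ) < n := by exact_mod_cast hn
    field_simp
  have hvn : Tendsto v atTop atTop := by
    refine tendsto_natCast_atTop_iff (R := ℝ).1 ?_
    refine tendsto_atTop_mono' atTop ?_ hvt
    filter_upwards [hvt.eventually_ge_atTop 1] with n hn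
    have h5 : (0 : ℝ) < v n := by
      by_contra hcon
      push Not at hcon
      have h6 : (v n : ℝ) = 0 := le_antisymm hcon (Nat.cast_nonneg _)
      rw [h6, Real.log_zero] at hn
      linarith
    have := Real.log_le_sub_one_of_pos h5
    linarith
  have h4 : Tendsto (fun n : ℕ => V (z (v n)) * Real.log (v n)) atTop (𝓝 1) := hz.2.comp hvn
  have h5 : Tendsto (fun n : ℕ => V (Wk κ (v n)) * Real.log (Wk κ (v n))) atTop
      (𝓝 (Real.exp (-Real.eulerMascheroniConstant))) := mertens.comp h2
  have hg : 0 < Real.exp (-Real.eulerMascheroniConstant) := Real.exp_pos _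
  have hWl : Tendsto (fun n : ℕ => Real.log (Wk κ (v n))) atTop atTop := log_top'.comp h2
  -- `W ≤ z`
  have h6 : ∀ᶠ n : ℕ in atTop, Wk κ (v n) ≤ z (v n) := by
    have h7 : Tendsto (fun n : ℕ => (V (z (v n)) * Real.log (v n)) / (V (Wk κ (v n)) * Real.log (Wk κ (v n))) *
        ((Real.log (Wk κ (v n)) / Real.log n) * (Real.log n / n) / (Real.log (v n) / n))) atTop (𝓝 0) := by
      have h8 := (h4.div h5 hg.ne')
      have h9 : Tendsto (fun n : ℕ => Real.log n / (n : ℝ)) atTop (𝓝 0) :=
        (Real.isLittleO_log_id_atTop.tendsto_div_nhds_zero).comp (tendsto_natCast_atTop_atTop (R := ℝ))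
      have h10 := (h3.mul h9).div hv hl.ne'
      have h11 := h8.mul h10
      rw [mul_zero, zero_div, mul_zero] at h11
      exact h11
    filter_upwards [h7.eventually (gt_mem_nhds (show (0 : ℝ) < 1 by norm_num)), hWl.eventually_ge_atTop 1,
      hvt.eventually_ge_atTop 1, log_top'.eventually_ge_atTop 1, eventually_ge_atTop 1] with n a1 a2 a3 a4 a5
    by_contra hcon
    push Not at hcon
    have h8 := V_anti hcon.le
    have hn0 : (0 : ℝ) < n := by exact_mod_cast a5
    have hV1 := V_pos (Wk κ (v n))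
    have h9 : (V (z (v n)) * Real.log (v n)) / (V (Wk κ (v n)) * Real.log (Wk κ (v n))) *
        ((Real.log (Wk κ (v n)) / Real.log n) * (Real.log n / n) / (Real.log (v n) / n)) =
        V (z (v n)) / V (Wk κ (v n)) := by
      field_simp
    rw [h9, div_lt_one hV1] at a1
    linarith
  refine ⟨?_, ?_⟩
  · have h8 := (((h4.div h5 hg.ne').mul h3).div hv hl.ne')
    rw [Real.exp_neg, one_div, inv_inv, mul_one] at h8
    refine h8.congr' ?_
    filter_upwards [h6, hWl.eventually_ge_atTop 1, hvt.eventually_ge_atTop 1, log_top'.eventually_ge_atTop 1,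
      eventually_ge_atTop 1] with n a1 a2 a3 a4 a5
    have hn0 : (0 : ℝ) < n := by exact_mod_cast a5
    have hV1 := V_pos (Wk κ (v n))
    simp only [Pi.div_apply, Pi.mul_apply]
    rw [pv_eq z (Wk κ) (v n) a1]
    field_simp
  · have h8 : Tendsto (fun n : ℕ => 2 * Real.log (v n) / (Wk κ (v n) * Real.log (Wk κ (v n))) * Real.log n) atTop
        (𝓝 (2 / κ)) := by
      have h9 := ((hv.const_mul 2).div h1 (mul_pos hκ hl).ne').div h3 one_ne_zero
      have e : 2 * l / (κ * l) / 1 = 2 / κ := by field_simp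
      rw [e] at h9
      refine h9.congr' ?_
      filter_upwards [hWl.eventually_ge_atTop 1, log_top'.eventually_ge_atTop 1,
        eventually_ge_atTop 1, h2.eventually_ge_atTop 1] with n a2 a4 a5 a6
      have hn0 : (0 : ℝ) < n := by exact_mod_cast a5
      have hW0 : (0 : ℝ) < Wk κ (v n) := by exact_mod_cast a6
      simp only [Pi.div_apply]
      field_simp
    filter_upwards [h8.eventually (gt_mem_nhds (show 2 / κ < 2 / κ + 1 by linarith)),
      log_top'.eventually_ge_atTop (2 * (2 / κ + 1)), hWl.eventually_ge_atTop 1,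
      log_top'.eventually_ge_atTop 1] with n a1 a2 a3 a4
    set η := 2 * Real.log (v n) / (Wk κ (v n) * Real.log (Wk κ (v n))) with hη
    have hL : 0 < Real.log n := by linarith
    have hη0 : 0 ≤ η := by
      have := Real.log_natCast_nonneg (v n)
      have h9 : 0 ≤ Real.log (Wk κ (v n)) := by linarith
      positivity
    have hη1 : η ≤ (2 / κ + 1) / Real.log n := by
      rw [le_div_iff₀ hL]
      exact a1.le
    have hη2 : η ≤ 1 / 2 := by
      refine hη1.trans ?_
      rw [div_le_iff₀ hL]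
      linarith
    have h9 := Real.exp_bound_div_one_sub_of_interval hη0 (by linarith : η < 1)
    have h10 : 1 / (1 - η) ≤ 1 + 2 * η := by
      rw [div_le_iff₀ (by linarith)]
      nlinarith
    have h11 : 2 * ((2 / κ + 1) / Real.log n) = (4 / κ + 2) / Real.log n := by ring
    linarith

end Pool.Agent.H559.SQ
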