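import Pool.Agent.H559.SQ.Law

set_option autoImplicit false

/-! # The law of Lenstra, Pomerance and Wagstaff in the hybrid random sieve: the law -/

open Finset MeasureTheory ProbabilityTheory Filter Topology
open Pool.Agent.T2H32.BF (Model prob V V_pos V_anti V_ratio mertens)
open Pool.Agent.H559.HY (RS)
open Pool.Agent.H559.BS (Limit)

namespace Pool.Agent.H559.SQ

/-- the weight `log p / p` on the primes -/
noncomputable def hh (n : ℕ) : ℝ := if n.Prime then Real.log n / n else 0

theorem hh_nonneg (n : ℕ) : 0 ≤ hh n := by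
  unfold hh
  split_ifs
  · exact div_nonneg (Real.log_natCast_nonneg n) (Nat.cast_nonneg n)
  · exact le_refl _

theorem hh_sum : Tendsto (fun y : ℕ => (∑ p ∈ range (y + 1), hh p) / Real.log y) atTop (𝓝 1) := by
  have h := div_sum 1 1 one_pos (Nat.coprime_one_right 1)
  rw [Nat.totient_one, Nat.cast_one, inv_one] at h
  refine h.congr fun y => ?_
  congr 1
  refine sum_congr rfl fun p _ => ?_
  unfold hh
  simp

/-- if `M_p` is sieved out by a small prime then `j p + 1` is a prime for a small `j` -/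
theorem not_Tr (A B : ℤ) (hA : 1 < A) (h1 : -A < B) (h2 : B < A) (hAB : IsCoprime A B) (κ : ℝ) (hκ : 0 < κ)
    (z : ℕ → ℕ) :
    ∀ᶠ n : ℕ in atTop, n.Prime → ¬ Tr z (Wk κ) (MM A B n).natAbs →
      ∃ j ∈ Icc 1 ⌈2 * κ * Real.log A⌉₊, (j * n + 1).Prime := by
  obtain ⟨h3, h4⟩ := MM_size A B hA h1 h2
  have hA0 : 0 < Real.log A := Real.log_pos (by exact_mod_cast hA)
  have hlog : Tendsto (fun n : ℕ => Real.log ((MM A B n).natAbs)) atTop atTop := by
    have h5 := h3.pos_mul_atTop hA0 (tendsto_natCast_atTop_atTop (R := ℝ))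
    refine h5.congr' ?_
    filter_upwards [eventually_ge_atTop 1] with n hn
    have hn0 : (0 : ℝ) < n := by exact_mod_cast hn
    field_simp
  filter_upwards [h3.eventually (gt_mem_nhds (show Real.log A < 2 * Real.log A by linarith)),
    hlog.eventually_ge_atTop (Real.log 3), eventually_ge_atTop ((A - B).natAbs + 1), eventually_ge_atTop 1]
    with n h5 h6 h7 h7' hn hT
  have hn0 : (0 : ℝ) < n := by exact_mod_cast hn.pos
  have hv3 : 3 ≤ (MM A B n).natAbs := by
    have h8 : 0 < ((MM A B n).natAbs : ℝ) := by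
      by_contra hcon
      push Not at hcon
      have h9 : ((MM A B n).natAbs : ℝ) = 0 := le_antisymm hcon (Nat.cast_nonneg _)
      rw [h9, Real.log_zero] at h6
      have : 0 < Real.log 3 := Real.log_pos (by norm_num)
      linarith
    have h9 := (Real.log_le_log_iff (by norm_num) h8).1 h6
    exact_mod_cast h9
  unfold Tr at hT
  push Not at hT
  obtain ⟨q, hqz, hqW, hq, hd⟩ := hT hv3
  have hd' : (q : ℤ) ∣ MM A B n := Int.natCast_dvd.2 hd
  have hnd : ¬ (n : ℤ) ∣ A - B := by
    intro h
    have h8 := Int.natCast_dvd.1 h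
    have h9 : 0 < (A - B).natAbs := by omega
    have := Nat.le_of_dvd h9 h8
    omega
  obtain ⟨j, hj⟩ := dvd_pred A B hAB n q hn hq hd' hnd
  have hq2 := hq.two_le
  have hqj : q = j * n + 1 := by
    have : q - 1 = j * n := by rw [hj, Nat.mul_comm]
    omega
  refine ⟨j, mem_Icc.2 ⟨?_, ?_⟩, hqj ▸ hq⟩
  · rcases Nat.eq_zero_or_pos j with h | h
    · rw [h] at hqj
      omega
    · exact h
  · have h8 : (q : ℝ) ≤ κ * Real.log ((MM A B n).natAbs) := by
      have h9 : (q : ℝ) ≤ Wk κ (MM A B n).natAbs := by exact_mod_cast hqW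
      exact h9.trans (Nat.floor_le (mul_nonneg hκ.le (Real.log_natCast_nonneg _)))
    rw [div_lt_iff₀ hn0] at h5
    have h9 : (j : ℝ) * n ≤ 2 * κ * Real.log A * n := by
      have h10 : (q : ℝ) = j * n + 1 := by exact_mod_cast hqj
      have h11 : κ * Real.log ((MM A B n).natAbs) ≤ κ * (2 * Real.log A * n) := by
        gcongr
      linarith
    have h12 : (j : ℝ) ≤ 2 * κ * Real.log A := le_of_mul_le_mul_right h9 hn0
    exact_mod_cast h12.trans (Nat.le_ceil _)

variable {Ω : Type*} [MeasurableSpace Ω] {P : Measure Ω} {a : ℕ → Ω → ℕ}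

/-- the events -/
def EE (z W : ℕ → ℕ) (a : ℕ → Ω → ℕ) (v : ℕ → ℕ) (n₀ n : ℕ) : Set Ω :=
  {ω | n.Prime ∧ n₀ ≤ n ∧ v n ∈ RS z W (fun q => a q ω)}

theorem EE_meas (h : Model P a) (z W : ℕ → ℕ) (v : ℕ → ℕ) (n₀ n : ℕ) : MeasurableSet (EE z W a v n₀ n) := by
  have e : EE z W a v n₀ n = {_ω | n.Prime ∧ n₀ ≤ n} ∩ {ω | v n ∈ RS z W (fun q => a q ω)} := by
    ext ω
    simp only [EE, Set.mem_ofPred_eq, Set.mem_inter_iff]
    tauto
  rw [e]
  exact (MeasurableSet.const _).inter (meas_RS h z W (v n))

theorem EE_prob (h : Model P a) (z W : ℕ → ℕ) (v : ℕ → ℕ) (n₀ n : ℕ) :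
    P.real (EE z W a v n₀ n) ≤ (if n.Prime then pv z W (v n) else 0) ∧
    (n.Prime → n₀ ≤ n → Tr z W (v n) → P.real (EE z W a v n₀ n) = pv z W (v n)) ∧
    (¬ (n.Prime ∧ n₀ ≤ n ∧ Tr z W (v n)) → P.real (EE z W a v n₀ n) = 0) := by
  have h1 : n.Prime → n₀ ≤ n → Tr z W (v n) → P.real (EE z W a v n₀ n) = pv z W (v n) := by
    intro hn hn0 hT
    rw [← one_num h z W (v n) hT]
    congr 1
    ext ω
    simp only [EE, Set.mem_ofPred_eq]
    tauto
  have h2 : ¬ (n.Prime ∧ n₀ ≤ n ∧ Tr z W (v n)) → P.real (EE z W a v n₀ n) = 0 := by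
    intro hn
    have e : EE z W a v n₀ n = ∅ := by
      ext ω
      simp only [EE, Set.mem_ofPred_eq, Set.mem_empty_iff_false, iff_false]
      rintro ⟨h3, h4, h5⟩
      exact hn ⟨h3, h4, ((mem_RS z W _ (v n)).1 h5).1⟩
    rw [e, measureReal_empty]
  refine ⟨?_, h1, h2⟩
  by_cases h3 : n.Prime ∧ n₀ ≤ n ∧ Tr z W (v n)
  · rw [h1 h3.1 h3.2.1 h3.2.2, if_pos h3.1]
  · rw [h2 h3]
    split_ifs
    · exact pv_nonneg _ _ _
    · exact le_refl _

open Classical in
/-- the law for one pair -/
theorem law (h : Model P a) (z : ℕ → ℕ) (hz : Limit z) (κ : ℝ) (hκ : 0 < κ) (A B : ℤ) (hA : 1 < A) (h1 : -A < B)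
    (h2 : B < A) (hAB : IsCoprime A B) :
    ∀ᵐ ω ∂P, Tendsto (fun y : ℕ => (((range (y + 1)).filter (fun p => p.Prime ∧
      (MM A B p).natAbs ∈ RS z (Wk κ) (fun q => a q ω))).card : ℝ) / Real.log y) atTop
      (𝓝 (Real.exp Real.eulerMascheroniConstant / Real.log A)) := by
  classical
  have := prob h
  set v : ℕ → ℕ := fun n => (MM A B n).natAbs with hv
  set c : ℝ := Real.exp Real.eulerMascheroniConstant / Real.log A with hc
  have hA0 : 0 < Real.log A := Real.log_pos (by exact_mod_cast hA)
  have hc0 : 0 < c := div_pos (Real.exp_pos _) hA0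
  obtain ⟨h3, n1, h4⟩ := MM_size A B hA h1 h2
  obtain ⟨h5, h6⟩ := pv_asym z hz κ hκ v (Real.log A) hA0 h3
  obtain ⟨h7, h8, h9⟩ := W_asym κ hκ v (Real.log A) hA0 h3
  set J := ⌈2 * κ * Real.log A⌉₊ with hJ
  -- the upper bound for the probabilities
  set u : ℕ → ℝ := fun n => if n.Prime then pv z (Wk κ) (v n) else 0 with hu
  have hu0 : ∀ n, 0 ≤ u n := by
    intro n
    simp only [hu]
    split_ifs
    · exact pv_nonneg _ _ _
    · exact le_refl _
  have hhlim : (fun n : ℕ => u n - c * hh n) =o[atTop] hh := by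
    rw [Asymptotics.isLittleO_iff]
    intro ε hε
    filter_upwards [h5.eventually (Metric.ball_mem_nhds c hε), log_top'.eventually_ge_atTop 1, eventually_ge_atTop 1]
      with n a1 a2 a3
    have hn0 : (0 : ℝ) < n := by exact_mod_cast a3
    by_cases hn : n.Prime
    · have e1 : u n = pv z (Wk κ) (v n) := if_pos hn
      have e2 : hh n = Real.log n / n := if_pos hn
      rw [Real.dist_eq] at a1
      have e3 : u n - c * hh n = (pv z (Wk κ) (v n) * (n / Real.log n) - c) * hh n := by
        rw [e1, e2]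
        field_simp
      rw [e3, norm_mul, Real.norm_eq_abs]
      exact mul_le_mul_of_nonneg_right a1.le (norm_nonneg _)
    · have e1 : u n = 0 := if_neg hn
      have e2 : hh n = 0 := if_neg hn
      rw [e1, e2]
      simp
  have hhtop : Tendsto (fun n : ℕ => ∑ i ∈ range n, hh i) atTop atTop := by
    have a1 := hh_sum.pos_mul_atTop one_pos log_top'
    have a2 : Tendsto (fun n : ℕ => ∑ i ∈ range (n + 1), hh i) atTop atTop := by
      refine a1.congr' ?_
      filter_upwards [log_top'.eventually_ge_atTop 1] with n hn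
      field_simp
    exact (tendsto_add_atTop_iff_nat 1).1 a2
  -- the bound for the partial sums of `u`
  have husum : Tendsto (fun y : ℕ => (∑ p ∈ range (y + 1), u p) / Real.log y) atTop (𝓝 c) := by
    have a1 := (hhlim.sum_range hh_nonneg hhtop).tendsto_div_nhds_zero
    have a2 := ((tendsto_add_atTop_iff_nat 1).2 a1).mul hh_sum
    have a3 := a2.add (hh_sum.const_mul c)
    rw [zero_mul, zero_add, mul_one] at a3
    refine a3.congr' ?_
    filter_upwards [log_top'.eventually_ge_atTop 1, ((tendsto_add_atTop_iff_nat 1).2 hhtop).eventually_ge_atTop 1]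
      with n a4 a5
    rw [sum_sub_distrib, ← mul_sum]
    field_simp
    ring
  -- the choice of `n₀`
  have hC : ∀ᶠ n : ℕ in atTop, (∑ p ∈ range (n + 1), u p) ≤ (c + 1) * Real.log n := by
    filter_upwards [husum.eventually (gt_mem_nhds (show c < c + 1 by linarith)), log_top'.eventually_ge_atTop 1]
      with n a1 a2
    rw [div_lt_iff₀ (by linarith)] at a1
    exact a1.le
  obtain ⟨n₀, hn₀⟩ := eventually_atTop.1 (hC.and (h6.and ((h8.eventually_ge_atTop 2).and
    ((log_top'.eventually_ge_atTop 1).and ((eventually_ge_atTop n1).and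
      (not_Tr A B hA h1 h2 hAB κ hκ z))))))
  set E : ℕ → Set Ω := EE z (Wk κ) a v n₀ with hE
  have hmono : ∀ m n : ℕ, n₀ ≤ m → m < n → v m < v n := by
    intro m n hm hmn
    have a1 : ∀ k : ℕ, n₀ ≤ k → 0 < MM A B k ∧ MM A B k < MM A B (k + 1) :=
      fun k hk => h4 k ((hn₀ k hk).2.2.2.2.1)
    have a2 : ∀ k : ℕ, n₀ ≤ k → v k < v (k + 1) := by
      intro k hk
      obtain ⟨b1, b2⟩ := a1 k hk
      simp only [hv]
      omega
    obtain ⟨d, rfl⟩ := Nat.exists_eq_add_of_lt hmn
    induction d with
    | zero => exact a2 m hm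
    | succ d ih =>
      refine (ih (by omega)).trans ?_
      exact a2 (m + d + 1) (by omega)
  -- the mean
  have hmean : Tendsto (fun y : ℕ => (∑ n ∈ range (y + 1), P.real (E n)) / Real.log y) atTop (𝓝 c) := by
    set K : ℝ := ∑ p ∈ range n₀, u p with hK
    set hj : ℕ → ℕ → ℝ := fun j p => if p.Prime ∧ (j * p + 1).Prime then Real.log p / p else 0 with hhj
    have hb : ∀ᶠ n : ℕ in atTop, pv z (Wk κ) (v n) * (n / Real.log n) ≤ c + 1 := by
      filter_upwards [h5.eventually (gt_mem_nhds (show c < c + 1 by linarith))] with n hn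
      exact hn.le
    obtain ⟨n2, hn2⟩ := eventually_atTop.1 hb
    set K2 : ℝ := ∑ p ∈ range (max n₀ n2), u p with hK2
    have hlow : ∀ y : ℕ, (∑ p ∈ range (y + 1), u p) - K2 - (c + 1) * ∑ j ∈ Icc 1 J, ∑ p ∈ range (y + 1), hj j p ≤
        ∑ n ∈ range (y + 1), P.real (E n) := by
      intro y
      have b1 : ∀ n ∈ range (y + 1), u n - (if n < max n₀ n2 then u n else 0) - (c + 1) * ∑ j ∈ Icc 1 J, hj j n ≤
          P.real (E n) := by
        intro n _
        have b2 : 0 ≤ ∑ j ∈ Icc 1 J, hj j n := by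
          refine sum_nonneg fun j _ => ?_
          simp only [hhj]
          split_ifs
          · exact div_nonneg (Real.log_natCast_nonneg n) (Nat.cast_nonneg n)
          · exact le_refl _
        have b3 : 0 ≤ (c + 1) * ∑ j ∈ Icc 1 J, hj j n := mul_nonneg (by linarith) b2
        have b4 : 0 ≤ P.real (E n) := measureReal_nonneg
        by_cases hn : n < max n₀ n2
        · rw [if_pos hn]
          linarith
        · rw [if_neg hn, sub_zero]
          have hn0 : n₀ ≤ n := by
            have := le_max_left n₀ n2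
            omega
          have hn2' : n2 ≤ n := by
            have := le_max_right n₀ n2
            omega
          by_cases hp : n.Prime
          · have e1 : u n = pv z (Wk κ) (v n) := if_pos hp
            by_cases hT : Tr z (Wk κ) (v n)
            · rw [(EE_prob h z (Wk κ) v n₀ n).2.1 hp hn0 hT, e1]
              linarith
            · obtain ⟨j, hj1, hj2⟩ := (hn₀ n hn0).2.2.2.2.2 hp hT
              have b5 : hj j n ≤ ∑ j ∈ Icc 1 J, hj j n := by
                refine single_le_sum (f := fun j => hj j n) (fun j _ => ?_) hj1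
                simp only [hhj]
                split_ifs
                · exact div_nonneg (Real.log_natCast_nonneg n) (Nat.cast_nonneg n)
                · exact le_refl _
              have b6 : hj j n = Real.log n / n := if_pos ⟨hp, hj2⟩
              have b7 : u n ≤ (c + 1) * (Real.log n / n) := by
                rw [e1]
                have b8 := hn2 n hn2'
                have hL : (0 : ℝ) < Real.log n := by linarith [(hn₀ n hn0).2.2.2.1]
                have hn0' : (0 : ℝ) < n := by exact_mod_cast hp.pos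
                have b9 : pv z (Wk κ) (v n) = pv z (Wk κ) (v n) * (n / Real.log n) * (Real.log n / n) := by
                  field_simp
                rw [b9]
                exact mul_le_mul_of_nonneg_right b8 (by positivity)
              have b8 : (c + 1) * (Real.log n / n) ≤ (c + 1) * ∑ j ∈ Icc 1 J, hj j n := by
                rw [← b6]
                exact mul_le_mul_of_nonneg_left b5 (by linarith)
              linarith
          · have e1 : u n = 0 := if_neg hp
            rw [e1]
            linarith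
      have b2 := sum_le_sum b1
      rw [sum_sub_distrib, sum_sub_distrib, ← mul_sum, sum_comm (s := range (y + 1)) (t := Icc 1 J)] at b2
      have b3 : ∑ n ∈ range (y + 1), (if n < max n₀ n2 then u n else 0) ≤ K2 := by
        rw [← sum_filter, hK2]
        refine sum_le_sum_of_subset_of_nonneg (fun p hp => ?_) fun p _ _ => hu0 p
        exact mem_range.2 (mem_filter.1 hp).2
      linarith
    have hsp : Tendsto (fun y : ℕ => (∑ j ∈ Icc 1 J, ∑ p ∈ range (y + 1), hj j p) / Real.log y) atTop (𝓝 0) := by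
      have b1 : Tendsto (fun y : ℕ => ∑ j ∈ Icc 1 J, (∑ p ∈ range (y + 1), hj j p) / Real.log y) atTop
          (𝓝 (∑ _j ∈ Icc 1 J, (0 : ℝ))) :=
        tendsto_finsetSum _ fun j hj' => sparse j (by
          have := (mem_Icc.1 hj').1
          omega)
      rw [sum_const_zero] at b1
      refine b1.congr fun y => ?_
      rw [sum_div]
    have hK2' : Tendsto (fun y : ℕ => K2 / Real.log y) atTop (𝓝 0) := tendsto_const_nhds.div_atTop log_top'
    have hl : Tendsto (fun y : ℕ => ((∑ p ∈ range (y + 1), u p) - K2 - (c + 1) * ∑ j ∈ Icc 1 J,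
        ∑ p ∈ range (y + 1), hj j p) / Real.log y) atTop (𝓝 c) := by
      have b1 := (husum.sub hK2').sub (hsp.const_mul (c + 1))
      rw [mul_zero, sub_zero, sub_zero] at b1
      refine b1.congr fun y => by ring
    refine tendsto_of_tendsto_of_tendsto_of_le_of_le' hl husum ?_ ?_
    · filter_upwards [log_top'.eventually_ge_atTop 1] with y hy
      gcongr
      exact hlow y
    · filter_upwards [log_top'.eventually_ge_atTop 1] with y hy
      gcongr with n _
      exact (EE_prob h z (Wk κ) v n₀ n).1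
  -- the covariances
  set C1 : ℝ := 4 / κ + 2 with hC1
  have hC1p : 0 < C1 := by positivity
  have hcov : ∀ᶠ y : ℕ in atTop,
      ∑ m ∈ range (y + 1), ∑ n ∈ range (y + 1), (P.real (E m ∩ E n) - P.real (E m) * P.real (E n)) ≤
        ((1 + 2 * (C1 * (c + 1))) * (c + 1)) * Real.log y := by
    filter_upwards [hC] with y hy
    set t : ℕ → ℕ → ℝ := fun m n => if m < n then P.real (E m) * P.real (E n) * (C1 / Real.log n) else 0 with ht
    have hpn : ∀ n, 0 ≤ P.real (E n) := fun n => measureReal_nonneg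
    have hpu : ∀ n, P.real (E n) ≤ u n := fun n => (EE_prob h z (Wk κ) v n₀ n).1
    -- a pair
    have hpair : ∀ m n : ℕ, m < n → P.real (E m ∩ E n) - P.real (E m) * P.real (E n) ≤ t m n := by
      intro m n hmn
      simp only [ht, if_pos hmn]
      by_cases hm : m.Prime ∧ n₀ ≤ m ∧ Tr z (Wk κ) (v m)
      · by_cases hn : n.Prime ∧ n₀ ≤ n ∧ Tr z (Wk κ) (v n)
        · have b1 := two_num h z (Wk κ) (v m) (v n) (hmono m n hm.2.1 hmn) hm.2.2 hn.2.2 (hn₀ n hn.2.1).2.2.1
          have b2 : P.real (E m ∩ E n) ≤ P.real ({ω | v m ∈ RS z (Wk κ) (fun q => a q ω)} ∩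
              {ω | v n ∈ RS z (Wk κ) (fun q => a q ω)}) :=
            measureReal_mono (Set.inter_subset_inter (fun ω hω => hω.2.2) (fun ω hω => hω.2.2))
          rw [(EE_prob h z (Wk κ) v n₀ m).2.1 hm.1 hm.2.1 hm.2.2, (EE_prob h z (Wk κ) v n₀ n).2.1 hn.1 hn.2.1 hn.2.2]
          have b3 := (hn₀ n hn.2.1).2.1
          have b4 : 0 ≤ pv z (Wk κ) (v m) * pv z (Wk κ) (v n) := mul_nonneg (pv_nonneg _ _ _) (pv_nonneg _ _ _)
          have b5 := mul_le_mul_of_nonneg_left b3 b4
          have b6 := b2.trans b1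
          rw [mul_sub, mul_one] at b5
          linarith
        · have b1 := (EE_prob h z (Wk κ) v n₀ n).2.2 hn
          have b2 : P.real (E m ∩ E n) ≤ P.real (E n) := measureReal_mono Set.inter_subset_right
          rw [hE] at b2 ⊢
          rw [b1] at b2 ⊢
          simpa using b2
      · have b1 := (EE_prob h z (Wk κ) v n₀ m).2.2 hm
        have b2 : P.real (E m ∩ E n) ≤ P.real (E m) := measureReal_mono Set.inter_subset_left
        rw [hE] at b2 ⊢
        rw [b1] at b2 ⊢
        simpa using b2
    have ht0 : ∀ m n, 0 ≤ t m n := by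
      intro m n
      simp only [ht]
      split_ifs
      · exact mul_nonneg (mul_nonneg (hpn _) (hpn _)) (div_nonneg hC1p.le (Real.log_natCast_nonneg _))
      · exact le_refl _
    have hall : ∀ m n : ℕ, P.real (E m ∩ E n) - P.real (E m) * P.real (E n) ≤
        (if m = n then P.real (E n) else 0) + (t m n + t n m) := by
      intro m n
      rcases lt_trichotomy m n with hmn | hmn | hmn
      · rw [if_neg hmn.ne]
        have := hpair m n hmn
        have := ht0 n m
        linarith
      · subst hmn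
        rw [if_pos rfl, Set.inter_self]
        have := mul_nonneg (hpn m) (hpn m)
        have := ht0 m m
        linarith
      · rw [if_neg hmn.ne', Set.inter_comm, mul_comm]
        have := hpair n m hmn
        have := ht0 m n
        linarith
    have hS : ∑ n ∈ range (y + 1), P.real (E n) ≤ (c + 1) * Real.log y :=
      (sum_le_sum fun n _ => hpu n).trans hy
    have htsum : ∑ n ∈ range (y + 1), ∑ m ∈ range (y + 1), t m n ≤ (C1 * (c + 1)) * ∑ n ∈ range (y + 1), P.real (E n) := by
      rw [mul_sum]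
      refine sum_le_sum fun n _ => ?_
      by_cases hn : n.Prime ∧ n₀ ≤ n ∧ Tr z (Wk κ) (v n)
      · have hL : (0 : ℝ) < Real.log n := by linarith [(hn₀ n hn.2.1).2.2.2.1]
        have b1 : ∑ m ∈ range (y + 1), t m n ≤ ∑ m ∈ range (n + 1), P.real (E n) * (C1 / Real.log n) * u m := by
          simp only [ht]
          rw [← sum_filter]
          refine (sum_le_sum_of_subset_of_nonneg (t := range (n + 1)) (fun m hm => ?_) (fun m _ _ => ?_)).trans ?_
          · have := (mem_filter.1 hm).2
            exact mem_range.2 (by omega)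
          · exact mul_nonneg (mul_nonneg (hpn _) (hpn _)) (div_nonneg hC1p.le hL.le)
          · refine sum_le_sum fun m _ => ?_
            have b2 : 0 ≤ P.real (E n) * (C1 / Real.log n) := mul_nonneg (hpn n) (div_nonneg hC1p.le hL.le)
            have b3 := mul_le_mul_of_nonneg_left (hpu m) b2
            calc P.real (E m) * P.real (E n) * (C1 / Real.log n) = P.real (E n) * (C1 / Real.log n) * P.real (E m) := by
                  ring
              _ ≤ _ := b3
        refine b1.trans ?_
        rw [← mul_sum]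
        have b4 := (hn₀ n hn.2.1).1
        have b5 : 0 ≤ P.real (E n) * (C1 / Real.log n) := mul_nonneg (hpn n) (div_nonneg hC1p.le hL.le)
        refine (mul_le_mul_of_nonneg_left b4 b5).trans (le_of_eq ?_)
        field_simp
      · have b1 : P.real (E n) = 0 := (EE_prob h z (Wk κ) v n₀ n).2.2 hn
        simp only [ht, b1, mul_zero, zero_mul, ite_self, sum_const_zero, le_refl]
    calc ∑ m ∈ range (y + 1), ∑ n ∈ range (y + 1), (P.real (E m ∩ E n) - P.real (E m) * P.real (E n)) ≤
        ∑ m ∈ range (y + 1), ∑ n ∈ range (y + 1), ((if m = n then P.real (E n) else 0) + (t m n + t n m)) :=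
          sum_le_sum fun m _ => sum_le_sum fun n _ => hall m n
      _ = ∑ n ∈ range (y + 1), P.real (E n) + (∑ n ∈ range (y + 1), ∑ m ∈ range (y + 1), t m n +
            ∑ n ∈ range (y + 1), ∑ m ∈ range (y + 1), t m n) := by
          simp only [sum_add_distrib]
          congr 1
          · rw [sum_comm]
            refine sum_congr rfl fun n hn => ?_
            rw [sum_ite_eq', if_pos hn]
          · congr 1
            rw [sum_comm]
      _ ≤ (c + 1) * Real.log y + 2 * ((C1 * (c + 1)) * ((c + 1) * Real.log y)) := by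
          have b1 := mul_le_mul_of_nonneg_left hS (mul_nonneg hC1p.le (by linarith : (0 : ℝ) ≤ c + 1))
          linarith
      _ = ((1 + 2 * (C1 * (c + 1))) * (c + 1)) * Real.log y := by ring
  have hlln := lln E (fun n => EE_meas h z (Wk κ) v n₀ n) c _ hmean hcov
  filter_upwards [hlln] with ω hω
  have hdiff : ∀ y : ℕ, |(((range (y + 1)).filter (fun p => p.Prime ∧
      (MM A B p).natAbs ∈ RS z (Wk κ) (fun q => a q ω))).card : ℝ) - cntE E y ω| ≤ n₀ := by
    intro y
    have b1 : cntE E y ω = (((range (y + 1)).filter (fun p => n₀ ≤ p ∧ p.Prime ∧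
        (MM A B p).natAbs ∈ RS z (Wk κ) (fun q => a q ω))).card : ℝ) := by
      unfold cntE
      rw [card_filter]
      push_cast
      refine sum_congr rfl fun n _ => ?_
      simp only [Set.indicator, hE, EE, Set.mem_ofPred_eq, hv]
      by_cases hc : n.Prime ∧ n₀ ≤ n ∧ (MM A B n).natAbs ∈ RS z (Wk κ) (fun q => a q ω)
      · rw [if_pos hc, if_pos ⟨hc.2.1, hc.1, hc.2.2⟩]
      · rw [if_neg hc, if_neg (fun hc' => hc ⟨hc'.2.1, hc'.1, hc'.2.2⟩)]
    rw [b1]
    set S1 := (range (y + 1)).filter (fun p => p.Prime ∧ (MM A B p).natAbs ∈ RS z (Wk κ) (fun q => a q ω)) with hS1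
    set S2 := (range (y + 1)).filter (fun p => n₀ ≤ p ∧ p.Prime ∧ (MM A B p).natAbs ∈ RS z (Wk κ) (fun q => a q ω))
      with hS2
    have b2 : S2 ⊆ S1 := by
      intro p hp
      have := mem_filter.1 hp
      exact mem_filter.2 ⟨this.1, this.2.2⟩
    have b3 : S1 ⊆ S2 ∪ range n₀ := by
      intro p hp
      have := mem_filter.1 hp
      by_cases hpn : n₀ ≤ p
      · exact mem_union_left _ (mem_filter.2 ⟨this.1, hpn, this.2⟩)
      · exact mem_union_right _ (mem_range.2 (by omega))
    have b4 := card_le_card b2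
    have b5 := (card_le_card b3).trans (card_union_le _ _)
    rw [card_range] at b5
    have b6 : (S2.card : ℝ) ≤ S1.card := by exact_mod_cast b4
    have b7 : (S1.card : ℝ) ≤ S2.card + n₀ := by exact_mod_cast b5
    rw [abs_le]
    constructor <;> linarith [(Nat.cast_nonneg n₀ : (0 : ℝ) ≤ n₀)]
  have hz0 : Tendsto (fun y : ℕ => ((((range (y + 1)).filter (fun p => p.Prime ∧
      (MM A B p).natAbs ∈ RS z (Wk κ) (fun q => a q ω))).card : ℝ) - cntE E y ω) / Real.log y) atTop (𝓝 0) := by
    have b1 : Tendsto (fun y : ℕ => (n₀ : ℝ) / Real.log y) atTop (𝓝 0) := tendsto_const_nhds.div_atTop log_top'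
    refine squeeze_zero_norm' ?_ b1
    filter_upwards [log_top'.eventually_ge_atTop 1] with y hy
    rw [Real.norm_eq_abs, abs_div, abs_of_pos (by linarith : 0 < Real.log y)]
    gcongr
    exact hdiff y
  have hfin := hz0.add hω
  rw [zero_add] at hfin
  refine hfin.congr fun y => ?_
  ring

end Pool.Agent.H559.SQ
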